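import Pool.Agent.Lib.MK.SpecA

namespace Pool.Agent.Lib.MK

open Finset Pool.Agent.Lib.EH3 Pool.Agent.Lib.TB Pool.Agent.Results.MP_00e23e_nt Pool.Agent.Lib.MI

/-- the number of elements of a residue class in an interval -/
private lemma Anm_count (m K1 K2 : ℕ) (a : ℤ) (hm : 1 ≤ m) (hK : K1 ≤ K2) :
    (((Ioc K1 K2).filter (fun k : ℕ => (m : ℤ) ∣ (k : ℤ) - a)).card : ℝ) ≤
      ((K2 : ℝ) - K1) / m + 1 := by
  have hm' : (0 : ℤ) < (m : ℤ) := by exact_mod_cast hm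
  have h1 : ((Ioc K1 K2).filter (fun k : ℕ => (m : ℤ) ∣ (k : ℤ) - a)).card ≤
      ((Ioc (K1 : ℤ) (K2 : ℤ)).filter (fun k : ℤ => k ≡ a [ZMOD (m : ℤ)])).card := by
    refine Finset.card_le_card_of_injOn (fun k : ℕ => (k : ℤ)) ?_ ?_
    · intro k hk
      have hk1 := Finset.mem_filter.1 (Finset.mem_coe.1 hk)
      have hk2 := Finset.mem_Ioc.1 hk1.1
      refine Finset.mem_coe.2 (Finset.mem_filter.2 ⟨Finset.mem_Ioc.2
        ⟨Int.ofNat_lt.2 hk2.1, Int.ofNat_le.2 hk2.2⟩, ?_⟩)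
      exact (Int.modEq_iff_dvd.2 (by
        have := (dvd_neg (a := (m : ℤ))).2 hk1.2
        rwa [neg_sub] at this))
    · intro k _ k' _ h
      exact Int.ofNat.inj h
  have h2 := Int.Ioc_filter_modEq_card (K1 : ℤ) (K2 : ℤ) hm' a
  have h3 : ((((Ioc (K1 : ℤ) (K2 : ℤ)).filter (fun k : ℤ => k ≡ a [ZMOD (m : ℤ)])).card : ℤ) : ℚ) ≤
      ((K2 : ℚ) - K1) / m + 1 := by
    rw [h2]
    push_cast
    refine max_le ?_ ?_
    · have e1 := Int.floor_le (((K2 : ℚ) - (a : ℚ)) / (m : ℚ))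
      have e2 := (Int.lt_floor_add_one (((K1 : ℚ) - (a : ℚ)) / (m : ℚ))).le
      have e3 : ((K2 : ℚ) - K1) / m = ((K2 : ℚ) - (a : ℚ)) / (m : ℚ) - ((K1 : ℚ) - (a : ℚ)) / (m : ℚ) := by
        ring
      rw [e3]
      linarith
    · have e4 : (0 : ℚ) ≤ (K2 : ℚ) - K1 := sub_nonneg.2 (by exact_mod_cast hK)
      positivity
  have h4 : (((((Ioc (K1 : ℤ) (K2 : ℤ)).filter (fun k : ℤ => k ≡ a [ZMOD (m : ℤ)])).card : ℤ) : ℚ) : ℝ) ≤
      (((((K2 : ℚ) - K1) / m + 1 : ℚ)) : ℝ) := by exact_mod_cast h3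
  push_cast at h4
  have h5 : (((Ioc K1 K2).filter (fun k : ℕ => (m : ℤ) ∣ (k : ℤ) - a)).card : ℝ) ≤
      (((Ioc (K1 : ℤ) (K2 : ℤ)).filter (fun k : ℤ => k ≡ a [ZMOD (m : ℤ)])).card : ℝ) := by
    exact_mod_cast h1
  exact h5.trans h4

private lemma Anm_sum_dl (m K1 K2 : ℕ) (a : ℤ) (hm : 1 ≤ m) (hK : K1 ≤ K2) :
    ∑ k ∈ Ioc K1 K2, ‖dl a m k‖ ≤ ((K2 : ℝ) - K1) / m + 1 := by
  have h1 : ∑ k ∈ Ioc K1 K2, ‖dl a m k‖ =
      (((Ioc K1 K2).filter (fun k : ℕ => (m : ℤ) ∣ (k : ℤ) - a)).card : ℝ) := by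
    rw [Finset.card_filter, Nat.cast_sum]
    refine Finset.sum_congr rfl fun k _ => ?_
    rw [dl_nonneg_norm]
    split_ifs <;> simp
  rw [h1]
  exact Anm_count m K1 K2 a hm hK

/-- u ≤ τ(u) φ(u) -/
private lemma Anm_tot (u : ℕ) (hu : 1 ≤ u) :
    (u : ℝ) ≤ (u.divisors.card : ℝ) * (u.totient : ℝ) := by
  have h1 : u ≤ u.divisors.card * u.totient := by
    conv_lhs => rw [← Nat.sum_totient u]
    rw [← smul_eq_mul, ← Finset.sum_const]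
    refine Finset.sum_le_sum fun d hd => ?_
    exact Nat.le_of_dvd (Nat.totient_pos.2 hu) (Nat.totient_dvd_of_dvd (Nat.dvd_of_mem_divisors hd))
  exact_mod_cast h1

/-- one modulus -/
private lemma Anm_one (T : ℝ) (D K1 K2 : ℕ) (a : ℤ) (q t : ℕ) (hT : Tau D T) (hK : K1 ≤ K2)
    (hq : Squarefree q) (htq : t ∣ q) (hqD : q ≤ D) :
    ∑ k ∈ Ioc K1 K2, ‖Ek a t q k‖ ≤ 2 * T * ((K2 : ℝ) - K1) * (q : ℝ)⁻¹ + 2 := by
  have hq1 : 1 ≤ q := Nat.pos_of_ne_zero hq.ne_zero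
  have ht1 : 1 ≤ t := Nat.pos_of_dvd_of_pos htq hq1
  have hu1 : 1 ≤ q / t := Nat.div_pos (Nat.le_of_dvd hq1 htq) ht1
  have htu : ((q / t : ℕ) : ℝ) * t = q := by exact_mod_cast Nat.div_mul_cancel htq
  set u := q / t with hu
  have hφ : (1 : ℝ) ≤ (u.totient : ℝ) := by exact_mod_cast Nat.totient_pos.2 hu1
  have hKK : (0 : ℝ) ≤ (K2 : ℝ) - K1 := sub_nonneg.2 (by exact_mod_cast hK)
  have hq' : (0 : ℝ) < q := by exact_mod_cast hq1
  have ht' : (0 : ℝ) < t := by exact_mod_cast ht1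
  have hu' : (0 : ℝ) < u := by exact_mod_cast hu1
  have hτ : (u.divisors.card : ℝ) ≤ T := by
    refine hT.2.2 u hu1 ?_
    have : u ≤ D := (Nat.div_le_self q t).trans hqD
    exact_mod_cast this
  have h1 : ∑ k ∈ Ioc K1 K2, ‖Ek a t q k‖ ≤ ∑ k ∈ Ioc K1 K2, ‖dl a q k‖ +
      (1 / (u.totient : ℝ)) * ∑ k ∈ Ioc K1 K2, ‖dl a t k‖ := by
    rw [Finset.mul_sum, ← Finset.sum_add_distrib]
    refine Finset.sum_le_sum fun k _ => ?_
    unfold Ek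
    refine (norm_sub_le _ _).trans (add_le_add le_rfl ?_)
    rw [← hu]
    split_ifs
    · rw [norm_mul, norm_div, norm_one, Complex.norm_natCast]
    · rw [norm_zero]
      positivity
  have h2 := Anm_sum_dl q K1 K2 a hq1 hK
  have h3 := Anm_sum_dl t K1 K2 a ht1 hK
  have h4 : (1 / (u.totient : ℝ)) * ∑ k ∈ Ioc K1 K2, ‖dl a t k‖ ≤
      (u.divisors.card : ℝ) * (((K2 : ℝ) - K1) / q) + 1 := by
    have h5 : (1 / (u.totient : ℝ)) * ∑ k ∈ Ioc K1 K2, ‖dl a t k‖ ≤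
        (1 / (u.totient : ℝ)) * (((K2 : ℝ) - K1) / t + 1) :=
      mul_le_mul_of_nonneg_left h3 (by positivity)
    refine h5.trans ?_
    rw [mul_add, mul_one]
    refine add_le_add ?_ ?_
    · have h6 := Anm_tot u hu1
      have h7 : 1 / (u.totient : ℝ) ≤ (u.divisors.card : ℝ) / u := by
        rw [div_le_div_iff₀ (by linarith) hu', one_mul]
        exact h6
      have h8 : (u.divisors.card : ℝ) * (((K2 : ℝ) - K1) / q) =
          (u.divisors.card : ℝ) / u * (((K2 : ℝ) - K1) / t) := by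
        rw [← htu]
        field_simp
      rw [h8]
      exact mul_le_mul_of_nonneg_right h7 (by positivity)
    · rw [div_le_one (by linarith)]
      exact hφ
  have h5 : (u.divisors.card : ℝ) * (((K2 : ℝ) - K1) / q) ≤ T * (((K2 : ℝ) - K1) / q) :=
    mul_le_mul_of_nonneg_right hτ (by positivity)
  have h6 : ((K2 : ℝ) - K1) / q ≤ T * (((K2 : ℝ) - K1) / q) :=
    le_mul_of_one_le_left (by positivity) hT.1
  have h7 : 2 * T * ((K2 : ℝ) - K1) * (q : ℝ)⁻¹ = T * (((K2 : ℝ) - K1) / q) +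
      T * (((K2 : ℝ) - K1) / q) := by
    rw [div_eq_mul_inv]
    ring
  rw [h7]
  linarith

/-- Trivial bound on average over the moduli. -/
theorem tAnm : AnmStmt := by
  intro T D K1 K2 a F t hT hD hK hF
  have hKK : (0 : ℝ) ≤ (K2 : ℝ) - K1 := sub_nonneg.2 (by exact_mod_cast hK)
  have hT0 : 0 ≤ T := le_trans zero_le_one hT.1
  have hsub : F ⊆ Icc 1 D := fun q hq => Finset.mem_Icc.2
    ⟨Nat.pos_of_ne_zero (hF q hq).1.ne_zero, (hF q hq).2.2⟩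
  have h1 : ∑ q ∈ F, ∑ k ∈ Ioc K1 K2, ‖Ek (a q) (t q) q k‖ ≤
      ∑ q ∈ F, (2 * T * ((K2 : ℝ) - K1) * (q : ℝ)⁻¹ + 2) :=
    Finset.sum_le_sum fun q hq => Anm_one T D K1 K2 (a q) q (t q) hT hK (hF q hq).1 (hF q hq).2.1
      (hF q hq).2.2
  rw [Finset.sum_add_distrib, ← Finset.mul_sum, Finset.sum_const, nsmul_eq_mul] at h1
  have h2 : ∑ q ∈ F, (q : ℝ)⁻¹ ≤ T := by
    have h3 : ∑ q ∈ F, (q : ℝ)⁻¹ ≤ ∑ q ∈ Icc 1 D, (q : ℝ)⁻¹ :=
      Finset.sum_le_sum_of_subset_of_nonneg hsub fun q _ _ => by positivity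
    have h4 : ∑ q ∈ Icc 1 D, (q : ℝ)⁻¹ = ((harmonic D : ℚ) : ℝ) := by
      rw [harmonic_eq_sum_Icc]
      push_cast
      rfl
    exact (h3.trans (h4.le.trans (harmonic_le_one_add_log D))).trans hT.2.1
  have h3 : (F.card : ℝ) ≤ D := by
    have := Finset.card_le_card hsub
    rw [Nat.card_Icc, Nat.add_sub_cancel] at this
    exact_mod_cast this
  have h4 : 2 * T * ((K2 : ℝ) - K1) * ∑ q ∈ F, (q : ℝ)⁻¹ ≤ 2 * T * ((K2 : ℝ) - K1) * T :=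
    mul_le_mul_of_nonneg_left h2 (by positivity)
  have h5 : 2 * T * ((K2 : ℝ) - K1) * T = 2 * T ^ 2 * ((K2 : ℝ) - K1) := by ring
  linarith

end Pool.Agent.Lib.MK
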