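import Pool.Agent.Lib.MK.SpecB

/-!
MP_00e23e_nt, directory Lib/MK, module Bds (helper58): all blocks, a function of t.
-/

namespace Pool.Agent.Lib.MK

open Finset Pool.Agent.Lib.EH3 Pool.Agent.Lib.TB Pool.Agent.Results.MP_00e23e_nt Pool.Agent.Lib.MI

theorem tBds (h1 : BdrStmt) (h2 : FspStmt) (h3 : MI.BtaStmt) : BdsStmt := by
  intro δ τ κ ε κ0 hP hκ0 hκ
  obtain ⟨η1, C1, x1, hη1, hB⟩ := h1 δ τ κ ε κ0 hP hκ0 hκ
  obtain ⟨C2, hC2, hTau⟩ := h3 (η1 / 2) 1 (by linarith) one_pos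
  refine ⟨η1 / 2, C2 * |C1|, max x1 1, by linarith, ?_⟩
  intro x a M N f g F t hx hNM hN hMN hMNx hf hg hF
  have hx1 : x1 ≤ x := (le_max_left _ _).trans hx
  have hx1' : 1 ≤ x := (le_max_right _ _).trans hx
  have hxpos : 0 < x := by linarith
  obtain ⟨u, s, hus, hG⟩ := hB x M N f g F t hx1 hNM hN hMN hMNx hf hg
    (fun q hq => ⟨(hF q hq).1, (hF q hq).2.2⟩)
  refine ⟨u, s, hus, ?_⟩
  have hT := hTau x hx1'
  rw [Real.rpow_one] at hT
  have hTpos : 0 ≤ C2 * x ^ (η1 / 2) := by linarith [hT.1]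
  have hδ : 1 / 2 + δ ≤ 1 := by
    obtain ⟨p1, p2, p3, p4, p5, p6, p7⟩ := hP
    linarith
  have key := h2 F (fun q => a (t q)) (fun q => t q * u q) (C2 * x ^ (η1 / 2)) (|C1| * x ^ (1 - η1))
    (fun q => ‖∑ m ∈ Ioc M (2 * M), ∑ n ∈ Ioc N (2 * N),
      f m * g n * Dl (a (t q)) (t q * u q) (s q) (m * n)‖) hTpos (by positivity) ?_ ?_
  · refine key.trans (le_of_eq ?_)
    have e : x ^ (1 - η1 / 2) = x ^ (η1 / 2) * x ^ (1 - η1) := by
      rw [← Real.rpow_add hxpos]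
      congr 1
      ring
    rw [e]
    ring
  · intro n
    rcases (F.filter (fun q => t q * u q = n)).eq_empty_or_nonempty with h | ⟨q0, hq0⟩
    · rw [h, Finset.image_empty, Finset.card_empty, Nat.cast_zero]
      exact hTpos
    · rw [Finset.mem_filter] at hq0
      obtain ⟨hq0F, hq0n⟩ := hq0
      obtain ⟨hMd, -, -⟩ := hF q0 hq0F
      have hq0pos : 0 < q0 := Nat.pos_of_ne_zero hMd.1.ne_zero
      have hnq : n ∣ q0 := by
        rw [← hq0n]
        exact ⟨s q0, (hus q0 hq0F).1⟩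
      have hn1 : 1 ≤ n := Nat.pos_of_dvd_of_pos hnq hq0pos
      have hnx : (n : ℝ) ≤ x := by
        have a1 : (n : ℝ) ≤ q0 := by exact_mod_cast Nat.le_of_dvd hq0pos hnq
        have a2 : (q0 : ℝ) ≤ x ^ (1 / 2 + δ) := hMd.2.2.1
        have a3 := Real.rpow_le_rpow_of_exponent_le hx1' hδ
        rw [Real.rpow_one] at a3
        linarith
      refine le_trans ?_ (hT.2.2 n hn1 hnx)
      have hsub : (F.filter (fun q => t q * u q = n)).image (fun q => a (t q)) ⊆ n.divisors.image a := by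
        intro b hb
        obtain ⟨q, hq, rfl⟩ := Finset.mem_image.1 hb
        rw [Finset.mem_filter] at hq
        refine Finset.mem_image.2 ⟨t q, ?_, rfl⟩
        rw [Nat.mem_divisors]
        exact ⟨⟨u q, hq.2.symm⟩, by omega⟩
      exact_mod_cast (Finset.card_le_card hsub).trans Finset.card_image_le
  · intro G a' hGF ha'
    have hgcd : ∀ q ∈ G, Int.gcd (a' (t q * u q)) q = 1 := by
      intro q hq
      have := ha' q hq
      rw [← this]
      exact (hF q (hGF hq)).2.1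
    have h4 := hG G a' hGF hgcd
    have h5 : ∑ q ∈ G, ‖∑ m ∈ Ioc M (2 * M), ∑ n ∈ Ioc N (2 * N),
        f m * g n * Dl (a (t q)) (t q * u q) (s q) (m * n)‖ =
        ∑ q ∈ G, ‖∑ m ∈ Ioc M (2 * M), ∑ n ∈ Ioc N (2 * N),
        f m * g n * Dl (a' (t q * u q)) (t q * u q) (s q) (m * n)‖ := by
      refine Finset.sum_congr rfl fun q hq => ?_
      have := ha' q hq
      rw [this]
    rw [h5]
    exact h4.trans (mul_le_mul_of_nonneg_right (le_abs_self _) (Real.rpow_nonneg hxpos.le _))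

end Pool.Agent.Lib.MK
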