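import Pool.Agent.Lib.MK.SpecB

/-!
MP_00e23e_nt, Lib/MK, chapter B, module Blg: the large sieve with the weights 1/s, the class depends on w.1.
-/

namespace Pool.Agent.Lib.MK

open Finset Pool.Agent.Lib.EH3 Pool.Agent.Lib.TB Pool.Agent.Results.MP_00e23e_nt Pool.Agent.Lib.MI

private lemma Blg_harm (X T : ℝ) (hT : Tau X T) (hX : 1 ≤ X) (p : ℕ × ℕ) (G : Finset (ℕ × ℕ × ℕ))
    (hG : ∀ w ∈ G, 1 ≤ w.2.2 ∧ (w.2.2 : ℝ) ≤ X) :
    ∑ w ∈ G.filter (fun w => (w.1, w.2.1) = p), (1 / (w.2.2 : ℝ)) ≤ T := by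
  classical
  have inj : Set.InjOn (fun w : ℕ × ℕ × ℕ => w.2.2)
      (G.filter (fun w => (w.1, w.2.1) = p) : Finset (ℕ × ℕ × ℕ)) := by
    rintro ⟨a, b, c⟩ h1 ⟨a', b', c'⟩ h2 h3
    simp only at h3
    obtain ⟨_, h1⟩ := mem_filter.1 (mem_coe.1 h1)
    obtain ⟨_, h2⟩ := mem_filter.1 (mem_coe.1 h2)
    rw [← h2] at h1
    simp only [Prod.mk.injEq] at h1
    simp [h1.1, h1.2, h3]
  have e1 : ∑ w ∈ G.filter (fun w => (w.1, w.2.1) = p), (1 / (w.2.2 : ℝ)) =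
      ∑ s ∈ ((G.filter (fun w => (w.1, w.2.1) = p)).image (fun w => w.2.2) : Finset ℕ), (1 / ((s : ℕ) : ℝ)) := by
    rw [Finset.sum_image inj]
  rw [e1]
  have e2 : (G.filter (fun w => (w.1, w.2.1) = p)).image (fun w => w.2.2) ⊆ Icc 1 ⌊X⌋₊ := by
    intro s hs
    obtain ⟨w, hw, rfl⟩ := mem_image.1 hs
    have := hG w (mem_filter.1 hw).1
    rw [mem_Icc]
    exact ⟨this.1, Nat.le_floor this.2⟩
  refine (Finset.sum_le_sum_of_subset_of_nonneg e2 (fun s _ _ => by positivity)).trans ?_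
  have h3 := harmonic_floor_le_one_add_log X hX
  have h4 : ((harmonic ⌊X⌋₊ : ℚ) : ℝ) = ∑ s ∈ Icc 1 ⌊X⌋₊, (1 / (s : ℝ)) := by
    rw [harmonic_eq_sum_Icc]
    push_cast
    simp
  rw [← h4]
  exact h3.trans hT.2.1

theorem tBlg (h1 : MI.LrgStmt) : BlgStmt := by
  classical
  obtain ⟨C, hC, A, h⟩ := h1
  refine ⟨C, hC, A + 1, ?_⟩
  intro X T a Z D M N G f g hT hX hZ hM hN hDX hMX hNX hG hf hg
  set F : ℕ × ℕ → ℝ := fun p =>
    ‖∑ m ∈ Ioc M (2 * M), ∑ n ∈ Ioc N (2 * N), f m * g n * Ek (a p.1) p.1 (p.1 * p.2) (m * n)‖ with hF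
  set W : Finset (ℕ × ℕ) := G.image (fun w => (w.1, w.2.1)) with hW
  have hF0 : ∀ p, 0 ≤ F p := fun p => norm_nonneg _
  have h0 := h X T Z D M N (fun w => a w.1) W f g hT hZ hM hN hDX hMX hNX (by
    intro w hw
    obtain ⟨v, hv, rfl⟩ := mem_image.1 hw
    obtain ⟨g1, g2, g3, g4, g5, g6, g7, g8⟩ := hG v hv
    exact ⟨g1, g2, g5, g6, g7, g8⟩) hf hg
  have hT0 : 0 ≤ T := le_trans zero_le_one hT.1
  have k1 : ∑ w ∈ G, (1 / (w.2.2 : ℝ)) * F (w.1, w.2.1) =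
      ∑ p ∈ W, ∑ w ∈ G.filter (fun w => (w.1, w.2.1) = p), (1 / (w.2.2 : ℝ)) * F (w.1, w.2.1) :=
    (sum_fiberwise_of_maps_to (fun w hw => mem_image_of_mem _ hw) _).symm
  have k2 : ∀ p ∈ W, ∑ w ∈ G.filter (fun w => (w.1, w.2.1) = p), (1 / (w.2.2 : ℝ)) * F (w.1, w.2.1) ≤
      T * F p := by
    intro p _
    have k3 : ∑ w ∈ G.filter (fun w => (w.1, w.2.1) = p), (1 / (w.2.2 : ℝ)) * F (w.1, w.2.1) =
        (∑ w ∈ G.filter (fun w => (w.1, w.2.1) = p), (1 / (w.2.2 : ℝ))) * F p := by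
      rw [sum_mul]
      refine sum_congr rfl (fun w hw => ?_)
      rw [(mem_filter.1 hw).2]
    rw [k3]
    exact mul_le_mul_of_nonneg_right (Blg_harm X T hT hX p G (fun w hw =>
      ⟨(hG w hw).2.2.1, (hG w hw).2.2.2.1⟩)) (hF0 p)
  have k4 : ∑ w ∈ G, (1 / (w.2.2 : ℝ)) * F (w.1, w.2.1) ≤ T * ∑ p ∈ W, F p := by
    rw [k1, mul_sum]
    exact sum_le_sum k2
  refine k4.trans ?_
  refine (mul_le_mul_of_nonneg_left h0 hT0).trans (le_of_eq ?_)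
  rw [pow_succ]
  ring

end Pool.Agent.Lib.MK
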