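import Pool.Agent.Lib.MK.SpecB

/-!
MP_00e23e_nt, directory Lib/MK, chapter B, module Bt2: the main part, Type II.
-/

namespace Pool.Agent.Lib.MK

open Finset Pool.Agent.Lib.EH3 Pool.Agent.Lib.TB Pool.Agent.Results.MP_00e23e_nt Pool.Agent.Lib.MI

private lemma Bt2_sqrt {C t : ℝ} (hC : 0 < C) (ht : 1 ≤ t) : Real.sqrt (C * t) ≤ (1 + C) * t := by
  rw [Real.sqrt_le_left (by positivity)]
  have h1 : C * t ≤ (1 + C) * t := by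
    apply mul_le_mul_of_nonneg_right _ (by linarith)
    linarith
  have h2 : 1 ≤ (1 + C) * t := by nlinarith
  nlinarith

theorem tBt2 (h1 : T2Stmt) (h2 : BdhStmt) : Bt2Stmt := by
  obtain ⟨C, hC, A, hT2⟩ := h1
  refine ⟨32 * (1 + C), by positivity, A, ?_⟩
  intro X T a k R S M N H Y0 P γ ω hT hR hS hM hN hY hX hMY hCf hω
  have hT1 : 1 ≤ T := hT.1
  have hR' : (0 : ℝ) < R := by exact_mod_cast hR
  have hS' : (0 : ℝ) < S := by exact_mod_cast hS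
  have hM' : (0 : ℝ) < M := by exact_mod_cast hM
  have hN' : (0 : ℝ) < N := by exact_mod_cast hN
  have hY' : (0 : ℝ) < Y0 := by exact_mod_cast hY
  have hTA : 1 ≤ T ^ A := one_le_pow₀ hT1
  set ρ : ℝ := Real.sqrt R * (Y0 : ℝ) ^ 2 * (S : ℝ) ^ 4 / N + (Y0 : ℝ) / (S : ℝ) ^ 2 + (Y0 : ℝ) ^ 2 / R with hρ
  have hρ0 : 0 ≤ ρ := by positivity
  set E : ℝ := ((R : ℝ) * (S : ℝ) ^ 2 * N) * Real.sqrt (C * T ^ A) * Real.sqrt ρ with hE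
  have hE0 : 0 ≤ E := by positivity
  have hmain := h2 a k R S M N H Y0 P γ ω E hR hS hM hY hMY hE0 hCf ?_
  · refine hmain.trans ?_
    have h3 : 32 * M * E / (R * (S : ℝ) ^ 2) = 32 * Real.sqrt (C * T ^ A) * ((M : ℝ) * N) * Real.sqrt ρ := by
      rw [hE]
      field_simp
    rw [h3]
    have h4 := Bt2_sqrt hC hTA
    have h5 : 0 ≤ ((M : ℝ) * N) * Real.sqrt ρ := by positivity
    calc 32 * Real.sqrt (C * T ^ A) * ((M : ℝ) * N) * Real.sqrt ρ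
        = 32 * (Real.sqrt (C * T ^ A) * (((M : ℝ) * N) * Real.sqrt ρ)) := by ring
      _ ≤ 32 * (((1 + C) * T ^ A) * (((M : ℝ) * N) * Real.sqrt ρ)) := by
          have := mul_le_mul_of_nonneg_right h4 h5
          linarith
      _ = 32 * (1 + C) * T ^ A * ((M : ℝ) * N) * Real.sqrt ρ := by ring
  · intro i Hs γ' hi hHs hγ' _
    have hi' : ((2 ^ i * Y0 : ℕ) : ℝ) ≤ 2 * H + Y0 := by exact_mod_cast hi
    have hp : (1 : ℝ) ≤ 2 ^ i := one_le_pow₀ (by norm_num)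
    have hX' : 100 * (R : ℝ) ^ 2 * (S : ℝ) ^ 4 * (N : ℝ) ^ 2 * (((2 ^ i * Y0 : ℕ) : ℝ)) ^ 2 ≤ X := by
      refine le_trans ?_ hX
      have h6 : (((2 ^ i * Y0 : ℕ) : ℝ)) ^ 2 ≤ (2 * H + Y0 : ℝ) ^ 2 := pow_le_pow_left₀ (by positivity) hi' 2
      exact mul_le_mul_of_nonneg_left h6 (by positivity)
    have hH1 : 1 ≤ 2 ^ i * Y0 := Nat.one_le_iff_ne_zero.2 (Nat.mul_ne_zero (by positivity) (by omega))
    have h7 := hT2 X T a k R S N (2 ^ i * Y0) Hs γ' ω hT hR hS hN hH1 hX' hHs hγ' hω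
    have h8 : Real.sqrt R * (((2 ^ i * Y0 : ℕ) : ℝ)) ^ 2 * (S : ℝ) ^ 4 / N + (((2 ^ i * Y0 : ℕ) : ℝ)) / (S : ℝ) ^ 2 +
        (((2 ^ i * Y0 : ℕ) : ℝ)) ^ 2 / R ≤ ((2 : ℝ) ^ i) ^ 2 * ρ := by
      push_cast
      have h9 : (2 : ℝ) ^ i * Y0 / (S : ℝ) ^ 2 ≤ ((2 : ℝ) ^ i) ^ 2 * ((Y0 : ℝ) / (S : ℝ) ^ 2) := by
        rw [mul_div_assoc]
        apply mul_le_mul_of_nonneg_right _ (by positivity)
        nlinarith
      calc Real.sqrt R * ((2 : ℝ) ^ i * Y0) ^ 2 * (S : ℝ) ^ 4 / N + (2 : ℝ) ^ i * Y0 / (S : ℝ) ^ 2 +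
            ((2 : ℝ) ^ i * Y0) ^ 2 / R ≤ Real.sqrt R * ((2 : ℝ) ^ i * Y0) ^ 2 * (S : ℝ) ^ 4 / N +
            ((2 : ℝ) ^ i) ^ 2 * ((Y0 : ℝ) / (S : ℝ) ^ 2) + ((2 : ℝ) ^ i * Y0) ^ 2 / R := by linarith
        _ = ((2 : ℝ) ^ i) ^ 2 * ρ := by
            rw [hρ]
            ring
    have h10 : ‖∑ h ∈ Hs, TT a h k R S N (γ' h) ω‖ ^ 2 ≤ (2 ^ i * E) ^ 2 := by
      refine h7.trans ?_
      have h11 : (2 ^ i * E) ^ 2 = C * T ^ A * ((R : ℝ) * (S : ℝ) ^ 2 * N) ^ 2 * (((2 : ℝ) ^ i) ^ 2 * ρ) := by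
        rw [hE, mul_pow, mul_pow, mul_pow, Real.sq_sqrt (by positivity), Real.sq_sqrt hρ0]
        ring
      rw [h11]
      exact mul_le_mul_of_nonneg_left h8 (by positivity)
    exact (pow_le_pow_iff_left₀ (norm_nonneg _) (by positivity) two_ne_zero).1 h10

end Pool.Agent.Lib.MK
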