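import Pool.Agent.Lib.MK.SpecD

/-!
MP_00e23e_nt, Lib/MK, module Dex (class a r depending on r): opening the square.
-/

namespace Pool.Agent.Lib.MK

open Finset Pool.Agent.Lib.EH3 Pool.Agent.Lib.TB Pool.Agent.Results.MP_00e23e_nt Pool.Agent.Lib.MI

private lemma Dex_ten_sum {ι : Type} (s : Finset ι) (M : ℕ) (g : ι → ℕ → ℂ) :
    Ten M (fun m => ∑ i ∈ s, g i m) = ∑ i ∈ s, Ten M (g i) := by
  unfold Ten
  rw [← Finset.mul_sum]
  refine congrArg _ ?_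
  calc ∑ i ∈ range M, ∑ j ∈ range M, ∑ k ∈ s, g k (i + j + M / 2)
      = ∑ i ∈ range M, ∑ k ∈ s, ∑ j ∈ range M, g k (i + j + M / 2) :=
        Finset.sum_congr rfl fun i _ => Finset.sum_comm
    _ = ∑ k ∈ s, ∑ i ∈ range M, ∑ j ∈ range M, g k (i + j + M / 2) := Finset.sum_comm

private lemma Dex_ten_mul (M : ℕ) (x : ℂ) (g : ℕ → ℂ) :
    Ten M (fun m => x * g m) = x * Ten M g := by
  unfold Ten
  simp only [← Finset.mul_sum]
  ring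

private lemma Dex_tr_cast (M : ℕ) (F : ℕ → ℝ) : ((TR M F : ℝ) : ℂ) = Ten M (fun m => (F m : ℂ)) := by
  unfold TR Ten
  push_cast
  rfl

private lemma Dex_conj_dl (a : ℤ) (q t : ℕ) : (starRingEnd ℂ) (dl a q t) = dl a q t := by
  unfold dl
  split_ifs <;> simp

private lemma Dex_conj_Dl (a : ℤ) (r s t : ℕ) : (starRingEnd ℂ) (Dl a r s t) = Dl a r s t := by
  unfold Dl
  simp only [map_sub, map_mul, map_div₀, map_one, map_natCast, Dex_conj_dl]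

private lemma Dex_sq (a : ℤ) (r S N m : ℕ) (β : ℕ → ℂ) (c : ℕ × ℕ → ℂ) :
    ((‖∑ s ∈ Ioc S (2 * S), c (r, s) * ∑ n ∈ Ioc N (2 * N), β n * Dl a r s (m * n)‖ ^ 2 : ℝ) : ℂ) =
      ∑ s1 ∈ Ioc S (2 * S), ∑ s2 ∈ Ioc S (2 * S), ∑ n1 ∈ Ioc N (2 * N), ∑ n2 ∈ Ioc N (2 * N),
        c (r, s1) * (starRingEnd ℂ) (c (r, s2)) * (β n1 * (starRingEnd ℂ) (β n2)) *
          (Dl a r s1 (m * n1) * Dl a r s2 (m * n2)) := by
  push_cast
  rw [← Complex.mul_conj', map_sum, Finset.sum_mul_sum]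
  refine Finset.sum_congr rfl fun s1 _ => Finset.sum_congr rfl fun s2 _ => ?_
  rw [map_mul, map_sum]
  have h1 : c (r, s1) * (∑ n ∈ Ioc N (2 * N), β n * Dl a r s1 (m * n)) *
      ((starRingEnd ℂ) (c (r, s2)) * ∑ n ∈ Ioc N (2 * N), (starRingEnd ℂ) (β n * Dl a r s2 (m * n))) =
      c (r, s1) * (starRingEnd ℂ) (c (r, s2)) * ((∑ n ∈ Ioc N (2 * N), β n * Dl a r s1 (m * n)) *
        ∑ n ∈ Ioc N (2 * N), (starRingEnd ℂ) (β n * Dl a r s2 (m * n))) := by ring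
  rw [h1, Finset.sum_mul_sum, Finset.mul_sum]
  refine Finset.sum_congr rfl fun n1 _ => ?_
  rw [Finset.mul_sum]
  refine Finset.sum_congr rfl fun n2 _ => ?_
  rw [map_mul, Dex_conj_Dl]
  ring

private lemma Dex_tr (a : ℤ) (r S M N : ℕ) (β : ℕ → ℂ) (c : ℕ × ℕ → ℂ) :
    ((TR M (fun m => ‖∑ s ∈ Ioc S (2 * S), c (r, s) *
      ∑ n ∈ Ioc N (2 * N), β n * Dl a r s (m * n)‖ ^ 2) : ℝ) : ℂ) =
      ∑ s1 ∈ Ioc S (2 * S), ∑ s2 ∈ Ioc S (2 * S), ∑ n1 ∈ Ioc N (2 * N), ∑ n2 ∈ Ioc N (2 * N),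
        c (r, s1) * (starRingEnd ℂ) (c (r, s2)) * (β n1 * (starRingEnd ℂ) (β n2)) *
          Ph a M r s1 s2 n1 n2 := by
  rw [Dex_tr_cast]
  have h1 : (fun m : ℕ => ((‖∑ s ∈ Ioc S (2 * S), c (r, s) *
      ∑ n ∈ Ioc N (2 * N), β n * Dl a r s (m * n)‖ ^ 2 : ℝ) : ℂ)) = fun m =>
      ∑ s1 ∈ Ioc S (2 * S), ∑ s2 ∈ Ioc S (2 * S), ∑ n1 ∈ Ioc N (2 * N), ∑ n2 ∈ Ioc N (2 * N),
        c (r, s1) * (starRingEnd ℂ) (c (r, s2)) * (β n1 * (starRingEnd ℂ) (β n2)) *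
          (Dl a r s1 (m * n1) * Dl a r s2 (m * n2)) := funext fun m => Dex_sq a r S N m β c
  rw [h1, Dex_ten_sum]
  refine Finset.sum_congr rfl fun s1 _ => ?_
  rw [Dex_ten_sum]
  refine Finset.sum_congr rfl fun s2 _ => ?_
  rw [Dex_ten_sum]
  refine Finset.sum_congr rfl fun n1 _ => ?_
  rw [Dex_ten_sum]
  refine Finset.sum_congr rfl fun n2 _ => ?_
  rw [Dex_ten_mul]
  rfl

theorem tDex : DexStmt := by
  classical
  intro a R S M N P β c _ hβ hc hcP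
  have h1 : ((∑ r ∈ Ioc R (2 * R), TR M (fun m => ‖∑ s ∈ Ioc S (2 * S), c (r, s) *
      ∑ n ∈ Ioc N (2 * N), β n * Dl (a r) r s (m * n)‖ ^ 2) : ℝ) : ℂ) =
      ∑ r ∈ Ioc R (2 * R), ∑ s1 ∈ Ioc S (2 * S), ∑ s2 ∈ Ioc S (2 * S), ∑ n1 ∈ Ioc N (2 * N),
        ∑ n2 ∈ Ioc N (2 * N), c (r, s1) * (starRingEnd ℂ) (c (r, s2)) *
          (β n1 * (starRingEnd ℂ) (β n2)) * Ph (a r) M r s1 s2 n1 n2 := by
    rw [Complex.ofReal_sum]
    exact Finset.sum_congr rfl fun r _ => Dex_tr (a r) r S M N β c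
  have h2 : ∑ r ∈ Ioc R (2 * R), ∑ s1 ∈ Ioc S (2 * S), ∑ s2 ∈ Ioc S (2 * S), ∑ n1 ∈ Ioc N (2 * N),
        ∑ n2 ∈ Ioc N (2 * N), c (r, s1) * (starRingEnd ℂ) (c (r, s2)) *
          (β n1 * (starRingEnd ℂ) (β n2)) * Ph (a r) M r s1 s2 n1 n2 =
      ∑ r ∈ Ioc R (2 * R), ∑ s1 ∈ Ioc S (2 * S), ∑ s2 ∈ Ioc S (2 * S), ∑ n1 ∈ Ioc N (2 * N),
        ∑ n2 ∈ Ioc N (2 * N), (if GdC (a r) r s1 s2 n1 n2 then c (r, s1) * (starRingEnd ℂ) (c (r, s2)) *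
          (β n1 * (starRingEnd ℂ) (β n2)) * Ph (a r) M r s1 s2 n1 n2 else 0) +
      ∑ r ∈ Ioc R (2 * R), ∑ s1 ∈ Ioc S (2 * S), ∑ s2 ∈ Ioc S (2 * S), ∑ n1 ∈ Ioc N (2 * N),
        ∑ n2 ∈ Ioc N (2 * N), (if GdC (a r) r s1 s2 n1 n2 then 0 else
          c (r, s1) * (starRingEnd ℂ) (c (r, s2)) *
          (β n1 * (starRingEnd ℂ) (β n2)) * Ph (a r) M r s1 s2 n1 n2) := by
    simp only [← Finset.sum_add_distrib]
    refine Finset.sum_congr rfl fun r _ => Finset.sum_congr rfl fun s1 _ =>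
      Finset.sum_congr rfl fun s2 _ => Finset.sum_congr rfl fun n1 _ =>
      Finset.sum_congr rfl fun n2 _ => ?_
    split_ifs <;> simp
  have h3 : ∑ r ∈ Ioc R (2 * R), TR M (fun m => ‖∑ s ∈ Ioc S (2 * S), c (r, s) *
      ∑ n ∈ Ioc N (2 * N), β n * Dl (a r) r s (m * n)‖ ^ 2) ≤
      ‖((∑ r ∈ Ioc R (2 * R), TR M (fun m => ‖∑ s ∈ Ioc S (2 * S), c (r, s) *
      ∑ n ∈ Ioc N (2 * N), β n * Dl (a r) r s (m * n)‖ ^ 2) : ℝ) : ℂ)‖ := by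
    rw [Complex.norm_real, Real.norm_eq_abs]
    exact le_abs_self _
  refine h3.trans ?_
  rw [h1, h2]
  refine (norm_add_le _ _).trans (add_le_add le_rfl ?_)
  refine norm_sum_le_of_le _ fun r _ => norm_sum_le_of_le _ fun s1 _ =>
    norm_sum_le_of_le _ fun s2 _ => norm_sum_le_of_le _ fun n1 _ =>
    norm_sum_le_of_le _ fun n2 _ => ?_
  by_cases hG : GdC (a r) r s1 s2 n1 n2
  · rw [if_pos hG, norm_zero]
    split_ifs
    · exact norm_nonneg _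
    · exact le_rfl
  · rw [if_neg hG]
    by_cases hP1 : (r, s1) ∈ P
    · by_cases hP2 : (r, s2) ∈ P
      · rw [if_pos (show Bd (a r) P r s1 s2 n1 n2 from ⟨hP1, hP2, hG⟩), norm_mul]
        have h4 : ‖c (r, s1) * (starRingEnd ℂ) (c (r, s2)) * (β n1 * (starRingEnd ℂ) (β n2))‖ ≤ 1 := by
          rw [norm_mul, norm_mul, norm_mul, Complex.norm_conj, Complex.norm_conj]
          have e1 := mul_le_one₀ (hc (r, s1)) (norm_nonneg _) (hc (r, s2))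
          have e2 := mul_le_one₀ (hβ n1) (norm_nonneg _) (hβ n2)
          exact mul_le_one₀ e1 (by positivity) e2
        calc _ ≤ 1 * ‖Ph (a r) M r s1 s2 n1 n2‖ := mul_le_mul_of_nonneg_right h4 (norm_nonneg _)
          _ = ‖Ph (a r) M r s1 s2 n1 n2‖ := one_mul _
      · rw [hcP _ hP2, map_zero, mul_zero, zero_mul, zero_mul, norm_zero]
        split_ifs
        · exact norm_nonneg _
        · exact le_rfl
    · rw [hcP _ hP1, zero_mul, zero_mul, zero_mul, norm_zero]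
      split_ifs
      · exact norm_nonneg _
      · exact le_rfl

end Pool.Agent.Lib.MK
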