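import Pool.Agent.Lib.MK.SpecD

/-!
MP_00e23e_nt, directory Lib/MK, module Eea: the bad terms, both full (helper2).
-/

namespace Pool.Agent.Lib.MK

open Finset Pool.Agent.Lib.EH3 Pool.Agent.Lib.TB Pool.Agent.Results.MP_00e23e_nt Pool.Agent.Lib.MI

private lemma Eea_cnt (q N n1 : ℕ) (hq : 1 ≤ q) :
    (((Ioc N (2 * N)).filter (fun n2 : ℕ => (q : ℤ) ∣ (n2 : ℤ) - n1)).card : ℝ) ≤ (N : ℝ) / q + 1 := by
  have h1 : (Ioc N (2 * N)).filter (fun n2 : ℕ => (q : ℤ) ∣ (n2 : ℤ) - n1) =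
      (Ioc N (2 * N)).filter (fun n2 : ℕ => n2 ≡ n1 [MOD q]) := by
    refine Finset.filter_congr fun x _ => ?_
    rw [Nat.modEq_iff_dvd, ← dvd_neg]
    rw [neg_sub]
  have hr0 : 0 < q := by omega
  have h2 := Nat.Ioc_filter_modEq_card N (2 * N) hr0 n1
  rw [h1]
  have h3 : ((((Ioc N (2 * N)).filter (fun n2 : ℕ => n2 ≡ n1 [MOD q])).card : ℤ) : ℚ) ≤
      (N : ℚ) / q + 1 := by
    rw [h2]
    have h4 : (0 : ℚ) ≤ (N : ℚ) / q + 1 := by positivity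
    have h5 := Int.floor_le ((((2 * N : ℕ) : ℚ) - n1) / (q : ℚ))
    have h6 := Int.lt_floor_add_one (((N : ℚ) - n1) / (q : ℚ))
    have h7 : (((2 * N : ℕ) : ℚ) - n1) / (q : ℚ) - ((N : ℚ) - n1) / (q : ℚ) = (N : ℚ) / q := by
      push_cast
      ring
    rw [Int.cast_max]
    refine max_le ?_ (by simpa using h4)
    push_cast at h5 h6 h7 ⊢
    linarith
  have h9 : ((((Ioc N (2 * N)).filter (fun n2 : ℕ => n2 ≡ n1 [MOD q])).card : ℚ) : ℝ) ≤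
      (((N : ℚ) / q + 1 : ℚ) : ℝ) := by
    exact_mod_cast h3
  push_cast at h9
  exact h9

/-- the arithmetic of a nonzero term -/
private lemma Eea_ar {a : ℕ → ℤ} {R S : ℕ} {z : ℝ} {P : Finset (ℕ × ℕ)} (hP : Pr a R S z P)
    {r s1 s2 n1 n2 m : ℕ} (hB : Bd (a r) P r s1 s2 n1 n2)
    (h1 : ((r * s1 : ℕ) : ℤ) ∣ ((m * n1 : ℕ) : ℤ) - a r)
    (h2 : ((r * s2 : ℕ) : ℤ) ∣ ((m * n2 : ℕ) : ℤ) - a r) :
    ∃ p : ℕ, p.Prime ∧ z < (p : ℝ) ∧ p ≤ 2 * S ∧ p ∣ s1 ∧ p ∣ s2 ∧ ((r * p : ℕ) : ℤ) ∣ (n2 : ℤ) - n1 := by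
  obtain ⟨hB1, hB2, hB3⟩ := hB
  obtain ⟨_, _, hs1, hs1', sq1, g1, pr1⟩ := hP _ hB1
  obtain ⟨_, _, _, _, sq2, g2, _⟩ := hP _ hB2
  simp only at sq1 sq2 g1 g2 pr1 hs1 hs1'
  have key : ∀ (q t : ℕ), Int.gcd (a r) (q : ℤ) = 1 → (q : ℤ) ∣ (t : ℤ) - a r → t.Coprime q := by
    intro q t hq ht
    have h3 : (Nat.gcd t q : ℤ) ∣ a r := by
      have h4 : (Nat.gcd t q : ℤ) ∣ (t : ℤ) := Int.natCast_dvd_natCast.2 (Nat.gcd_dvd_left _ _)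
      have h5 : (Nat.gcd t q : ℤ) ∣ (t : ℤ) - a r :=
        (Int.natCast_dvd_natCast.2 (Nat.gcd_dvd_right _ _)).trans ht
      have h6 := dvd_sub h4 h5
      rwa [sub_sub_cancel] at h6
    have h7 : Nat.gcd t q ∣ Int.gcd (a r) (q : ℤ) :=
      Int.dvd_gcd h3 (Int.natCast_dvd_natCast.2 (Nat.gcd_dvd_right _ _))
    rw [hq] at h7
    exact Nat.dvd_one.1 h7
  have c1 := key _ _ g1 h1
  have c2 := key _ _ g2 h2
  have cm : m.Coprime (r * s1) := Nat.Coprime.coprime_dvd_left (dvd_mul_right _ _) c1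
  have cn1 : n1.Coprime (r * s1) := Nat.Coprime.coprime_dvd_left (dvd_mul_left _ _) c1
  have cn2 : n2.Coprime (r * s2) := Nat.Coprime.coprime_dvd_left (dvd_mul_left _ _) c2
  -- divisibility of the difference by a common divisor of the two moduli
  have hdv : ∀ q : ℕ, q ∣ r * s1 → q ∣ r * s2 → (q : ℤ) ∣ (n2 : ℤ) - n1 := by
    intro q hq1 hq2
    have e1 : (q : ℤ) ∣ ((m * n1 : ℕ) : ℤ) - a r := (Int.natCast_dvd_natCast.2 hq1).trans h1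
    have e2 : (q : ℤ) ∣ ((m * n2 : ℕ) : ℤ) - a r := (Int.natCast_dvd_natCast.2 hq2).trans h2
    have h3 := dvd_sub e2 e1
    have h4 : ((m * n2 : ℕ) : ℤ) - a r - (((m * n1 : ℕ) : ℤ) - a r) = (m : ℤ) * ((n2 : ℤ) - n1) := by
      push_cast
      ring
    rw [h4] at h3
    have h5 : IsCoprime (q : ℤ) (m : ℤ) :=
      (Nat.isCoprime_iff_coprime.2 (Nat.Coprime.coprime_dvd_right hq1 cm)).symm
    exact h5.dvd_of_dvd_mul_left h3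
  have hnc : ¬ s1.Coprime s2 := fun hc =>
    hB3 ⟨⟨sq1, sq2, hc, cn1, cn2, g1, g2⟩, hdv r (dvd_mul_right _ _) (dvd_mul_right _ _)⟩
  obtain ⟨p, hp, hp1, hp2⟩ := Nat.Prime.not_coprime_iff_dvd.1 hnc
  exact ⟨p, hp, pr1 p hp hp1, (Nat.le_of_dvd (by omega) hp1).trans hs1', hp1, hp2,
    hdv (r * p) (Nat.mul_dvd_mul_left _ hp1) (Nat.mul_dvd_mul_left _ hp2)⟩

/-- a symmetric relation with few pairs in every row -/
private lemma Eea_am (B : Finset ℕ) (Rel : ℕ → ℕ → Prop) [∀ x y, Decidable (Rel x y)] (f : ℕ → ℝ)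
    (K : ℝ) (hsym : ∀ x y, Rel x y ↔ Rel y x)
    (hK : ∀ x ∈ B, ((B.filter (fun y => Rel x y)).card : ℝ) ≤ K) :
    ∑ x ∈ B, ∑ y ∈ B, (if Rel x y then f x * f y else 0) ≤ K * ∑ x ∈ B, f x ^ 2 := by
  have e1 : ∑ x ∈ B, ∑ y ∈ B, (if Rel x y then f y ^ 2 else 0) =
      ∑ x ∈ B, ∑ y ∈ B, (if Rel x y then f x ^ 2 else 0) := by
    rw [Finset.sum_comm]
    refine Finset.sum_congr rfl fun x _ => Finset.sum_congr rfl fun y _ => ?_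
    by_cases h : Rel x y
    · rw [if_pos h, if_pos ((hsym x y).1 h)]
    · rw [if_neg h, if_neg fun h' => h ((hsym y x).1 h')]
  have e2 : ∑ x ∈ B, ∑ y ∈ B, (if Rel x y then f x * f y else 0) ≤
      ∑ x ∈ B, ∑ y ∈ B, ((if Rel x y then f x ^ 2 else 0) / 2 + (if Rel x y then f y ^ 2 else 0) / 2) := by
    refine Finset.sum_le_sum fun x _ => Finset.sum_le_sum fun y _ => ?_
    by_cases h : Rel x y
    · simp only [if_pos h]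
      nlinarith [sq_nonneg (f x - f y)]
    · simp only [if_neg h]
      norm_num
  have e3 : ∑ x ∈ B, ∑ y ∈ B, ((if Rel x y then f x ^ 2 else 0) / 2 +
      (if Rel x y then f y ^ 2 else 0) / 2) = ∑ x ∈ B, ∑ y ∈ B, (if Rel x y then f x ^ 2 else 0) := by
    simp only [Finset.sum_add_distrib, ← Finset.sum_div]
    rw [e1]
    ring
  rw [e3] at e2
  refine e2.trans ?_
  rw [Finset.mul_sum]
  refine Finset.sum_le_sum fun x hx => ?_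
  rw [← Finset.sum_filter, Finset.sum_const, nsmul_eq_mul]
  exact mul_le_mul_of_nonneg_right (hK x hx) (sq_nonneg _)

/-- exchange of the sums -/
private lemma Eea_swap (S' B Q : Finset ℕ) (F : ℕ → ℕ → ℕ → ℕ → ℕ → ℝ) :
    ∑ s1 ∈ S', ∑ s2 ∈ S', ∑ n1 ∈ B, ∑ n2 ∈ B, ∑ p ∈ Q, F p s1 s2 n1 n2 =
      ∑ p ∈ Q, ∑ n1 ∈ B, ∑ n2 ∈ B, ∑ s1 ∈ S', ∑ s2 ∈ S', F p s1 s2 n1 n2 := by
  calc ∑ s1 ∈ S', ∑ s2 ∈ S', ∑ n1 ∈ B, ∑ n2 ∈ B, ∑ p ∈ Q, F p s1 s2 n1 n2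
      = ∑ v ∈ S' ×ˢ S', ∑ w ∈ B ×ˢ B, ∑ p ∈ Q, F p v.1 v.2 w.1 w.2 := by
        rw [Finset.sum_product]
        refine Finset.sum_congr rfl fun s1 _ => Finset.sum_congr rfl fun s2 _ => ?_
        rw [Finset.sum_product]
    _ = ∑ v ∈ S' ×ˢ S', ∑ p ∈ Q, ∑ w ∈ B ×ˢ B, F p v.1 v.2 w.1 w.2 :=
        Finset.sum_congr rfl fun v _ => Finset.sum_comm
    _ = ∑ p ∈ Q, ∑ v ∈ S' ×ˢ S', ∑ w ∈ B ×ˢ B, F p v.1 v.2 w.1 w.2 := Finset.sum_comm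
    _ = ∑ p ∈ Q, ∑ w ∈ B ×ˢ B, ∑ v ∈ S' ×ˢ S', F p v.1 v.2 w.1 w.2 :=
        Finset.sum_congr rfl fun p _ => Finset.sum_comm
    _ = _ := by
        refine Finset.sum_congr rfl fun p _ => ?_
        rw [Finset.sum_product]
        refine Finset.sum_congr rfl fun n1 _ => Finset.sum_congr rfl fun n2 _ => ?_
        rw [Finset.sum_product]

private lemma Eea_sq {z : ℝ} (hz : 1 ≤ z) (L : ℕ) (Q : Finset ℕ) (hQ : ∀ p ∈ Q, z < (p : ℝ) ∧ p ≤ L) :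
    ∑ p ∈ Q, 1 / (p : ℝ) ^ 2 ≤ 2 / z := by
  set k := ⌊z⌋₊ with hk
  have hk1 : 1 ≤ k := Nat.le_floor (by exact_mod_cast hz)
  have hkz : (k : ℝ) ≤ z := Nat.floor_le (by linarith)
  have hzk : z < (k : ℝ) + 1 := Nat.lt_floor_add_one z
  have hk' : (1 : ℝ) ≤ k := by exact_mod_cast hk1
  have hsub : Q ⊆ Ioc k (max k L) := by
    intro p hp
    obtain ⟨h1, h2⟩ := hQ p hp
    rw [mem_Ioc]
    refine ⟨?_, h2.trans (le_max_right _ _)⟩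
    have h3 : (k : ℝ) < (p : ℝ) := lt_of_le_of_lt hkz h1
    exact_mod_cast h3
  have h1 := sum_Ioc_inv_sq_le_sub (α := ℝ) (k := k) (n := max k L) (by omega) (le_max_left _ _)
  have h2 : (0 : ℝ) ≤ ((max k L : ℕ) : ℝ)⁻¹ := by positivity
  calc ∑ p ∈ Q, 1 / (p : ℝ) ^ 2 ≤ ∑ p ∈ Ioc k (max k L), 1 / (p : ℝ) ^ 2 :=
        Finset.sum_le_sum_of_subset_of_nonneg hsub fun p _ _ => by positivity
    _ = ∑ p ∈ Ioc k (max k L), ((p : ℝ) ^ 2)⁻¹ := Finset.sum_congr rfl fun p _ => one_div _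
    _ ≤ (k : ℝ)⁻¹ := by linarith
    _ ≤ 2 / z := by
        rw [inv_eq_one_div, div_le_div_iff₀ (by linarith) (by linarith)]
        linarith

private lemma Eea_hm (L : ℕ) (Q : Finset ℕ) (hQ : ∀ p ∈ Q, 1 ≤ p ∧ p ≤ L) :
    ∑ p ∈ Q, 1 / (p : ℝ) ≤ 1 + Real.log L := by
  have h1 : ∑ p ∈ Q, 1 / (p : ℝ) ≤ ∑ p ∈ Icc 1 L, 1 / (p : ℝ) :=
    Finset.sum_le_sum_of_subset_of_nonneg (fun p hp => mem_Icc.2 (hQ p hp)) fun p _ _ => by
      positivity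
  refine h1.trans ?_
  have h2 := harmonic_le_one_add_log L
  rw [harmonic_eq_sum_Icc] at h2
  push_cast at h2
  simpa only [one_div] using h2

open Classical in
/-- the counting function for fixed r and p -/
private noncomputable def Eea_u (A : ℤ) (P : Finset (ℕ × ℕ)) (S r p k : ℕ) : ℝ :=
  (((Ioc S (2 * S)).filter (fun s => (r, s) ∈ P ∧ p ∣ s ∧ ((r * s : ℕ) : ℤ) ∣ (k : ℤ) - A)).card : ℝ)

open Classical in
/-- one m, one r -/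
private lemma Eea_one {a : ℕ → ℤ} {R S : ℕ} {z : ℝ} {P : Finset (ℕ × ℕ)} (hP : Pr a R S z P)
    (m r N : ℕ) :
    ∑ s1 ∈ Ioc S (2 * S), ∑ s2 ∈ Ioc S (2 * S), ∑ n1 ∈ Ioc N (2 * N), ∑ n2 ∈ Ioc N (2 * N),
      (if Bd (a r) P r s1 s2 n1 n2 then D1 (a r) r s1 (m * n1) * D1 (a r) r s2 (m * n2) else 0) ≤
    ∑ p ∈ (Ioc 0 (2 * S)).filter (fun p : ℕ => p.Prime ∧ z < (p : ℝ)),
      ∑ n1 ∈ Ioc N (2 * N), ∑ n2 ∈ Ioc N (2 * N),
        (if ((r * p : ℕ) : ℤ) ∣ (n2 : ℤ) - n1 then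
          Eea_u (a r) P S r p (m * n1) * Eea_u (a r) P S r p (m * n2) else 0) := by
  set Q : Finset ℕ := (Ioc 0 (2 * S)).filter (fun p : ℕ => p.Prime ∧ z < (p : ℝ)) with hQ
  let χ : ℕ → ℕ → ℕ → ℝ := fun p s n =>
    if (r, s) ∈ P ∧ p ∣ s ∧ ((r * s : ℕ) : ℤ) ∣ ((m * n : ℕ) : ℤ) - a r then 1 else 0
  have hχ : ∀ p s n, 0 ≤ χ p s n := by
    intro p s n
    simp only [χ]
    split_ifs <;> norm_num
  let F : ℕ → ℕ → ℕ → ℕ → ℕ → ℝ := fun p s1 s2 n1 n2 =>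
    if ((r * p : ℕ) : ℤ) ∣ (n2 : ℤ) - n1 then χ p s1 n1 * χ p s2 n2 else 0
  have hF : ∀ p s1 s2 n1 n2, 0 ≤ F p s1 s2 n1 n2 := by
    intro p s1 s2 n1 n2
    simp only [F]
    split_ifs
    · exact mul_nonneg (hχ _ _ _) (hχ _ _ _)
    · exact le_rfl
  have hterm : ∀ s1 s2 n1 n2 : ℕ,
      (if Bd (a r) P r s1 s2 n1 n2 then D1 (a r) r s1 (m * n1) * D1 (a r) r s2 (m * n2) else 0) ≤
        ∑ p ∈ Q, F p s1 s2 n1 n2 := by
    intro s1 s2 n1 n2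
    have hnn : 0 ≤ ∑ p ∈ Q, F p s1 s2 n1 n2 := Finset.sum_nonneg fun p _ => hF _ _ _ _ _
    by_cases hB : Bd (a r) P r s1 s2 n1 n2
    · rw [if_pos hB]
      unfold D1
      by_cases h1 : ((r * s1 : ℕ) : ℤ) ∣ ((m * n1 : ℕ) : ℤ) - a r
      · by_cases h2 : ((r * s2 : ℕ) : ℤ) ∣ ((m * n2 : ℕ) : ℤ) - a r
        · obtain ⟨p, hp, hzp, hpS, hp1, hp2, hd⟩ := Eea_ar hP hB h1 h2
          have hpQ : p ∈ Q := by
            rw [hQ, mem_filter, mem_Ioc]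
            exact ⟨⟨hp.pos, hpS⟩, hp, hzp⟩
          have hFp : F p s1 s2 n1 n2 = 1 := by
            simp only [F, χ]
            rw [if_pos hd, if_pos ⟨hB.1, hp1, h1⟩, if_pos ⟨hB.2.1, hp2, h2⟩, mul_one]
          rw [if_pos h1, if_pos h2, mul_one, ← hFp]
          exact Finset.single_le_sum (f := fun p => F p s1 s2 n1 n2) (fun q _ => hF q _ _ _ _) hpQ
        · rw [if_neg h2, mul_zero]
          exact hnn
      · rw [if_neg h1, zero_mul]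
        exact hnn
    · rw [if_neg hB]
      exact hnn
  calc _ ≤ ∑ s1 ∈ Ioc S (2 * S), ∑ s2 ∈ Ioc S (2 * S), ∑ n1 ∈ Ioc N (2 * N), ∑ n2 ∈ Ioc N (2 * N),
        ∑ p ∈ Q, F p s1 s2 n1 n2 :=
        Finset.sum_le_sum fun s1 _ => Finset.sum_le_sum fun s2 _ => Finset.sum_le_sum fun n1 _ =>
          Finset.sum_le_sum fun n2 _ => hterm s1 s2 n1 n2
    _ = ∑ p ∈ Q, ∑ n1 ∈ Ioc N (2 * N), ∑ n2 ∈ Ioc N (2 * N), ∑ s1 ∈ Ioc S (2 * S),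
        ∑ s2 ∈ Ioc S (2 * S), F p s1 s2 n1 n2 := Eea_swap _ _ _ _
    _ = _ := by
        refine Finset.sum_congr rfl fun p _ => Finset.sum_congr rfl fun n1 _ =>
          Finset.sum_congr rfl fun n2 _ => ?_
        have hu : ∀ n, Eea_u (a r) P S r p (m * n) = ∑ s ∈ Ioc S (2 * S), χ p s n := by
          intro n
          unfold Eea_u
          simp only [χ]
          rw [Finset.sum_boole]
        by_cases hd : ((r * p : ℕ) : ℤ) ∣ (n2 : ℤ) - n1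
        · simp only [F, if_pos hd]
          rw [hu, hu, Finset.sum_mul_sum]
        · simp only [F, if_neg hd, Finset.sum_const_zero]

open Classical in
theorem tEea (h1 : MJ.EuuStmt) : EeaStmt := by
  intro X T z a R S M N P hSz hP
  have hSz' := hSz
  obtain ⟨hT, hz, hR, hS, hN, hM, hRN, hX, hRS⟩ := hSz
  have hT1 : 1 ≤ T := hT.1
  have hR' : (1 : ℝ) ≤ R := by exact_mod_cast hR
  have hS' : (1 : ℝ) ≤ S := by exact_mod_cast hS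
  have hN' : (1 : ℝ) ≤ N := by exact_mod_cast hN
  have hM' : (8 : ℝ) ≤ M := by exact_mod_cast hM
  have hz0 : 0 < z := by linarith
  have hR0 : (0 : ℝ) < R := by linarith
  have hX2 : 2 * (S : ℝ) ≤ X := by
    refine le_trans ?_ hX
    have e1 : (S : ℝ) ≤ (S : ℝ) ^ 4 := le_self_pow₀ hS' (by norm_num)
    have e2 : (1 : ℝ) ≤ (N : ℝ) ^ 2 := one_le_pow₀ hN'
    have e3 : (1 : ℝ) ≤ (M : ℝ) ^ 2 := one_le_pow₀ (by linarith)
    have e4 : (1 : ℝ) ≤ (R : ℝ) ^ 2 := one_le_pow₀ hR'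
    calc 2 * (S : ℝ) ≤ 100 * 1 * 1 * 1 * S := by linarith
      _ ≤ 100 * (M : ℝ) ^ 2 * (N : ℝ) ^ 2 * (R : ℝ) ^ 2 * (S : ℝ) ^ 4 := by gcongr
  have hRSr : (R : ℝ) * (S : ℝ) ^ 2 ≤ (M : ℝ) * N := by
    have h0 : ((R * S ^ 2 : ℕ) : ℝ) ≤ ((M * N : ℕ) : ℝ) := Nat.cast_le.2 hRS
    push_cast at h0
    exact h0
  set Q : Finset ℕ := (Ioc 0 (2 * S)).filter (fun p : ℕ => p.Prime ∧ z < (p : ℝ)) with hQ
  have hQ1 : ∀ p ∈ Q, 1 ≤ p ∧ p ≤ 2 * S ∧ z < (p : ℝ) := by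
    intro p hp
    rw [hQ, mem_filter, mem_Ioc] at hp
    exact ⟨hp.1.1, hp.1.2, hp.2.2⟩
  -- fixed r, p
  have hrp : ∀ r ∈ Ioc R (2 * R), ∀ p ∈ Q,
      ∑ m ∈ Icc (M / 2) (3 * M), ∑ n1 ∈ Ioc N (2 * N), ∑ n2 ∈ Ioc N (2 * N),
        (if ((r * p : ℕ) : ℤ) ∣ (n2 : ℤ) - n1 then
          Eea_u (a r) P S r p (m * n1) * Eea_u (a r) P S r p (m * n2) else 0) ≤
      ((N : ℝ) / ((R : ℝ) * p) + 1) *
        (T * (24 * T * ((M : ℝ) * N) / ((R : ℝ) * p) + 4 * (S : ℝ) ^ 2 / (p : ℝ) ^ 2)) := by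
    intro r hr p hp
    rw [mem_Ioc] at hr
    obtain ⟨hp1, hp2, hp3⟩ := hQ1 p hp
    have hp0 : (1 : ℝ) ≤ p := by exact_mod_cast hp1
    have hrR : (R : ℝ) ≤ r := by exact_mod_cast hr.1.le
    have hK : ∀ n1 : ℕ, (((Ioc N (2 * N)).filter
        (fun n2 : ℕ => ((r * p : ℕ) : ℤ) ∣ (n2 : ℤ) - n1)).card : ℝ) ≤ (N : ℝ) / ((R : ℝ) * p) + 1 := by
      intro n1
      have f1 : 1 ≤ r * p := Nat.mul_pos (by omega) hp1
      refine (Eea_cnt (r * p) N n1 f1).trans ?_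
      have f4 : (N : ℝ) / ((r * p : ℕ) : ℝ) ≤ (N : ℝ) / ((R : ℝ) * p) := by
        refine div_le_div_of_nonneg_left (Nat.cast_nonneg _) (by positivity) ?_
        push_cast
        gcongr
      linarith
    have hm : ∀ m ∈ Icc (M / 2) (3 * M), ∑ n1 ∈ Ioc N (2 * N), ∑ n2 ∈ Ioc N (2 * N),
        (if ((r * p : ℕ) : ℤ) ∣ (n2 : ℤ) - n1 then
          Eea_u (a r) P S r p (m * n1) * Eea_u (a r) P S r p (m * n2) else 0) ≤
        ((N : ℝ) / ((R : ℝ) * p) + 1) * ∑ n ∈ Ioc N (2 * N), Eea_u (a r) P S r p (m * n) ^ 2 := by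
      intro m _
      refine Eea_am (Ioc N (2 * N)) (fun n1 n2 => ((r * p : ℕ) : ℤ) ∣ (n2 : ℤ) - n1)
        (fun n => Eea_u (a r) P S r p (m * n)) _ ?_ fun n1 _ => hK n1
      intro x y
      rw [← dvd_neg, neg_sub]
    refine (Finset.sum_le_sum hm).trans ?_
    rw [← Finset.mul_sum]
    refine mul_le_mul_of_nonneg_left ?_ (by positivity)
    -- the second moment
    set P' := P.filter (fun w => w.1 = r) with hP'
    have hPr : MJ.Pr (a r) R S z P' := by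
      intro w hw
      rw [hP', mem_filter] at hw
      have h2 := hP w hw.1
      rw [hw.2] at h2 ⊢
      exact h2
    have h2 := h1 X T z (a r) R S M N r p P' hSz' hPr hr.1 hr.2 hp1
    refine le_trans (le_of_eq ?_) h2
    refine Finset.sum_congr rfl fun m _ => Finset.sum_congr rfl fun n _ => ?_
    unfold Eea_u
    have h3 : (Ioc S (2 * S)).filter (fun s => (r, s) ∈ P ∧ p ∣ s ∧
        ((r * s : ℕ) : ℤ) ∣ ((m * n : ℕ) : ℤ) - a r) =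
        (Ioc S (2 * S)).filter (fun s => (r, s) ∈ P' ∧ p ∣ s ∧
        ((r * s : ℕ) : ℤ) ∣ ((m * n : ℕ) : ℤ) - a r) := by
      refine Finset.filter_congr fun s _ => ?_
      rw [hP', mem_filter]
      simp only [and_true]
    rw [h3]
  -- the bound for one p, times the number of r
  have hp : ∀ p ∈ Q, (R : ℝ) * (((N : ℝ) / ((R : ℝ) * p) + 1) *
      (T * (24 * T * ((M : ℝ) * N) / ((R : ℝ) * p) + 4 * (S : ℝ) ^ 2 / (p : ℝ) ^ 2))) ≤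
      28 * T ^ 2 * ((M : ℝ) * N) * ((N : ℝ) / R * (1 / (p : ℝ) ^ 2) + 1 / (p : ℝ)) := by
    intro p hpQ
    obtain ⟨hp1, -, -⟩ := hQ1 p hpQ
    have hp0 : (1 : ℝ) ≤ p := by exact_mod_cast hp1
    have hpp : (0 : ℝ) < p := by linarith
    have k1 : (R : ℝ) * (T * (24 * T * ((M : ℝ) * N) / ((R : ℝ) * p) + 4 * (S : ℝ) ^ 2 / (p : ℝ) ^ 2)) ≤
        28 * T ^ 2 * ((M : ℝ) * N) * (1 / p) := by
      have k2 : (R : ℝ) * (T * (24 * T * ((M : ℝ) * N) / ((R : ℝ) * p) + 4 * (S : ℝ) ^ 2 / (p : ℝ) ^ 2)) =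
          24 * T ^ 2 * ((M : ℝ) * N) * (1 / p) + 4 * T * ((R : ℝ) * (S : ℝ) ^ 2) * (1 / p * (1 / p)) := by
        field_simp
      have k3 : (1 : ℝ) / p ≤ 1 := by
        rw [div_le_one hpp]
        exact hp0
      have k4 : (1 : ℝ) / p * (1 / p) ≤ 1 * (1 / p) :=
        mul_le_mul_of_nonneg_right k3 (by positivity)
      have k5 : 4 * T * ((R : ℝ) * (S : ℝ) ^ 2) * (1 / p * (1 / p)) ≤
          4 * T ^ 2 * ((M : ℝ) * N) * (1 / p) := by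
        calc 4 * T * ((R : ℝ) * (S : ℝ) ^ 2) * (1 / p * (1 / p))
            ≤ 4 * T * ((M : ℝ) * N) * (1 * (1 / p)) := by gcongr
          _ = 4 * (T * 1) * ((M : ℝ) * N) * (1 / p) := by ring
          _ ≤ 4 * (T * T) * ((M : ℝ) * N) * (1 / p) := by gcongr
          _ = 4 * T ^ 2 * ((M : ℝ) * N) * (1 / p) := by ring
      rw [k2]
      linarith
    calc (R : ℝ) * (((N : ℝ) / ((R : ℝ) * p) + 1) *
          (T * (24 * T * ((M : ℝ) * N) / ((R : ℝ) * p) + 4 * (S : ℝ) ^ 2 / (p : ℝ) ^ 2)))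
        = ((N : ℝ) / ((R : ℝ) * p) + 1) * ((R : ℝ) *
          (T * (24 * T * ((M : ℝ) * N) / ((R : ℝ) * p) + 4 * (S : ℝ) ^ 2 / (p : ℝ) ^ 2))) := by ring
      _ ≤ ((N : ℝ) / ((R : ℝ) * p) + 1) * (28 * T ^ 2 * ((M : ℝ) * N) * (1 / p)) :=
          mul_le_mul_of_nonneg_left k1 (by positivity)
      _ = _ := by
          field_simp
  have hsum1 : ∑ p ∈ Q, 1 / (p : ℝ) ^ 2 ≤ 2 / z :=
    Eea_sq hz (2 * S) Q fun p hp => ⟨(hQ1 p hp).2.2, (hQ1 p hp).2.1⟩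
  have hsum2 : ∑ p ∈ Q, 1 / (p : ℝ) ≤ T := by
    refine (Eea_hm (2 * S) Q fun p hp => ⟨(hQ1 p hp).1, (hQ1 p hp).2.1⟩).trans ?_
    refine le_trans ?_ hT.2.1
    have h2 : Real.log ((2 * S : ℕ) : ℝ) ≤ Real.log X := by
      refine Real.log_le_log ?_ ?_
      · push_cast
        linarith
      · push_cast
        exact hX2
    linarith
  calc ∑ m ∈ Icc (M / 2) (3 * M), ∑ r ∈ Ioc R (2 * R), ∑ s1 ∈ Ioc S (2 * S), ∑ s2 ∈ Ioc S (2 * S),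
      ∑ n1 ∈ Ioc N (2 * N), ∑ n2 ∈ Ioc N (2 * N),
        (if Bd (a r) P r s1 s2 n1 n2 then D1 (a r) r s1 (m * n1) * D1 (a r) r s2 (m * n2) else 0)
      ≤ ∑ m ∈ Icc (M / 2) (3 * M), ∑ r ∈ Ioc R (2 * R), ∑ p ∈ Q,
        ∑ n1 ∈ Ioc N (2 * N), ∑ n2 ∈ Ioc N (2 * N),
        (if ((r * p : ℕ) : ℤ) ∣ (n2 : ℤ) - n1 then
          Eea_u (a r) P S r p (m * n1) * Eea_u (a r) P S r p (m * n2) else 0) :=
        Finset.sum_le_sum fun m _ => Finset.sum_le_sum fun r _ => Eea_one hP m r N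
    _ = ∑ r ∈ Ioc R (2 * R), ∑ p ∈ Q, ∑ m ∈ Icc (M / 2) (3 * M),
        ∑ n1 ∈ Ioc N (2 * N), ∑ n2 ∈ Ioc N (2 * N),
        (if ((r * p : ℕ) : ℤ) ∣ (n2 : ℤ) - n1 then
          Eea_u (a r) P S r p (m * n1) * Eea_u (a r) P S r p (m * n2) else 0) := by
        rw [Finset.sum_comm]
        exact Finset.sum_congr rfl fun r _ => Finset.sum_comm
    _ ≤ ∑ _r ∈ Ioc R (2 * R), ∑ p ∈ Q, ((N : ℝ) / ((R : ℝ) * p) + 1) *
        (T * (24 * T * ((M : ℝ) * N) / ((R : ℝ) * p) + 4 * (S : ℝ) ^ 2 / (p : ℝ) ^ 2)) :=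
        Finset.sum_le_sum fun r hr => Finset.sum_le_sum fun p hp => hrp r hr p hp
    _ = ∑ p ∈ Q, (R : ℝ) * (((N : ℝ) / ((R : ℝ) * p) + 1) *
        (T * (24 * T * ((M : ℝ) * N) / ((R : ℝ) * p) + 4 * (S : ℝ) ^ 2 / (p : ℝ) ^ 2))) := by
        rw [Finset.sum_const, nsmul_eq_mul, ← Finset.mul_sum]
        have e1 : (Ioc R (2 * R)).card = R := by rw [Nat.card_Ioc]; omega
        rw [e1]
    _ ≤ ∑ p ∈ Q, 28 * T ^ 2 * ((M : ℝ) * N) * ((N : ℝ) / R * (1 / (p : ℝ) ^ 2) + 1 / (p : ℝ)) :=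
        Finset.sum_le_sum hp
    _ = 28 * T ^ 2 * ((M : ℝ) * N) * ((N : ℝ) / R * ∑ p ∈ Q, 1 / (p : ℝ) ^ 2 +
        ∑ p ∈ Q, 1 / (p : ℝ)) := by
        rw [← Finset.mul_sum, Finset.sum_add_distrib, ← Finset.mul_sum]
    _ ≤ 28 * T ^ 2 * ((M : ℝ) * N) * ((N : ℝ) / R * (2 / z) + T) := by gcongr
    _ = 56 * T ^ 2 * ((M : ℝ) * N * (N / ((R : ℝ) * z))) + 28 * T ^ 3 * ((M : ℝ) * N) := by
        field_simp
        ring
    _ ≤ 60 * T ^ 5 * ((M : ℝ) * N * (N / ((R : ℝ) * z))) + 60 * T ^ 5 * ((M : ℝ) * N) := by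
        have t2 : T ^ 2 ≤ T ^ 5 := pow_le_pow_right₀ hT1 (by norm_num)
        have t3 : T ^ 3 ≤ T ^ 5 := pow_le_pow_right₀ hT1 (by norm_num)
        have p1 : 0 ≤ (M : ℝ) * N * (N / ((R : ℝ) * z)) := by positivity
        have p2 : 0 ≤ (M : ℝ) * N := by positivity
        have q1 : 56 * T ^ 2 ≤ 60 * T ^ 5 := by nlinarith [pow_pos (lt_of_lt_of_le one_pos hT1) 5]
        have q2 : 28 * T ^ 3 ≤ 60 * T ^ 5 := by nlinarith [pow_pos (lt_of_lt_of_le one_pos hT1) 5]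
        exact add_le_add (mul_le_mul_of_nonneg_right q1 p1) (mul_le_mul_of_nonneg_right q2 p2)
    _ = 60 * T ^ 5 * ((M : ℝ) * N * (1 + N / ((R : ℝ) * z))) := by ring

end Pool.Agent.Lib.MK
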