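import Pool.Agent.Lib.MK.SpecA

/-! MP_00e23e_nt, Lib/MK, module Fpw: prime powers in a class on average over q. -/

namespace Pool.Agent.Lib.MK

open Finset Pool.Agent.Lib.EH3 Pool.Agent.Lib.TB Pool.Agent.Results.MP_00e23e_nt Pool.Agent.Lib.MI

/-- the indicator of the class -/
private noncomputable def Fpw_i (a : ℕ → ℤ) (q n : ℕ) : ℝ := if (q : ℤ) ∣ (n : ℤ) - a q then 1 else 0

private lemma Fpw_i_nonneg (a : ℕ → ℤ) (q n : ℕ) : 0 ≤ Fpw_i a q n := by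
  unfold Fpw_i
  split_ifs
  · exact zero_le_one
  · exact le_rfl

private lemma Fpw_i_le (a : ℕ → ℤ) (q n : ℕ) : Fpw_i a q n ≤ 1 := by
  unfold Fpw_i
  split_ifs
  · exact le_rfl
  · exact zero_le_one

private lemma Fpw_card {D : ℕ} {F : Finset ℕ} (hF : ∀ q ∈ F, 1 ≤ q ∧ q ≤ D) : (F.card : ℝ) ≤ D := by
  have h1 : F ⊆ Icc 1 D := fun q hq => mem_Icc.2 (hF q hq)
  have h2 := card_le_card h1
  rw [Nat.card_Icc, Nat.add_sub_cancel] at h2
  exact_mod_cast h2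

private lemma Fpw_two {X T : ℝ} (a : ℕ → ℤ) {D Y : ℕ} {F E : Finset ℕ} (hT : Tau X T)
    (hY : (Y : ℝ) ≤ X) (hF : ∀ q ∈ F, 1 ≤ q ∧ q ≤ D) (hE : E ⊆ Icc 1 Y) {n n' : ℕ} (hn : n ∈ E)
    (hn' : n' ∈ E) : ∑ q ∈ F, Fpw_i a q n * Fpw_i a q n' ≤ (if n = n' then (D : ℝ) else 0) + T := by
  have hT1 := hT.1
  split_ifs with h
  · have h1 : ∑ q ∈ F, Fpw_i a q n * Fpw_i a q n' ≤ ∑ _q ∈ F, (1 : ℝ) := by
      refine Finset.sum_le_sum fun q _ => ?_
      have h2 := mul_le_mul (Fpw_i_le a q n) (Fpw_i_le a q n') (Fpw_i_nonneg a q n') zero_le_one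
      rwa [one_mul] at h2
    rw [Finset.sum_const, nsmul_eq_mul, mul_one] at h1
    have h3 := Fpw_card hF
    linarith
  · rw [zero_add]
    have hnY := mem_Icc.1 (hE hn)
    have hnY' := mem_Icc.1 (hE hn')
    set Z : ℕ := ((n : ℤ) - n').natAbs with hZ
    have hZ1 : 1 ≤ Z := by omega
    have hZY : Z ≤ Y := by omega
    have h4 : ∑ q ∈ F, Fpw_i a q n * Fpw_i a q n' ≤
        ∑ q ∈ F, if q ∈ Z.divisors then (1 : ℝ) else 0 := by
      refine Finset.sum_le_sum fun q _ => ?_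
      unfold Fpw_i
      by_cases h5 : (q : ℤ) ∣ (n : ℤ) - a q
      · by_cases h6 : (q : ℤ) ∣ (n' : ℤ) - a q
        · have h7 : (q : ℤ) ∣ (n : ℤ) - n' := by
            have h8 := dvd_sub h5 h6
            have h9 : (n : ℤ) - a q - ((n' : ℤ) - a q) = (n : ℤ) - n' := by ring
            rwa [h9] at h8
          have h10 : q ∈ Z.divisors :=
            Nat.mem_divisors.2 ⟨Int.natCast_dvd.1 h7, by omega⟩
          rw [if_pos h5, if_pos h6, if_pos h10, one_mul]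
        · rw [if_neg h6, mul_zero]
          split_ifs
          · exact zero_le_one
          · exact le_rfl
      · rw [if_neg h5, zero_mul]
        split_ifs
        · exact zero_le_one
        · exact le_rfl
    refine h4.trans ?_
    rw [← Finset.sum_filter, Finset.sum_const, nsmul_eq_mul, mul_one]
    have h11 : (F.filter (fun q => q ∈ Z.divisors)).card ≤ Z.divisors.card :=
      card_le_card fun q hq => (mem_filter.1 hq).2
    have h12 : (Z : ℝ) ≤ X := le_trans (by exact_mod_cast hZY) hY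
    exact le_trans (by exact_mod_cast h11) (hT.2.2 Z hZ1 h12)

theorem tFpw : FpwStmt := by
  intro X T W a D Y F E g hT hY hF hE hg0 hgT hgW
  have hT1 := hT.1
  have hT0 : 0 ≤ T := by linarith
  have hW0 : 0 ≤ ∑ n ∈ E, g n := Finset.sum_nonneg fun n _ => hg0 n
  have hWW : 0 ≤ W := hW0.trans hgW
  have e1 : ∀ q : ℕ, ∑ n ∈ E, (if (q : ℤ) ∣ (n : ℤ) - a q then g n else 0) =
      ∑ n ∈ E, Fpw_i a q n * g n := by
    intro q
    refine Finset.sum_congr rfl fun n _ => ?_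
    unfold Fpw_i
    split_ifs
    · rw [one_mul]
    · rw [zero_mul]
  rw [Finset.sum_congr rfl fun q _ => e1 q]
  have h1 : (∑ q ∈ F, ∑ n ∈ E, Fpw_i a q n * g n) ^ 2 ≤
      (F.card : ℝ) * ∑ q ∈ F, (∑ n ∈ E, Fpw_i a q n * g n) ^ 2 := sq_sum_le_card_mul_sum_sq
  have h2 : ∑ q ∈ F, (∑ n ∈ E, Fpw_i a q n * g n) ^ 2 =
      ∑ n ∈ E, ∑ n' ∈ E, (∑ q ∈ F, Fpw_i a q n * Fpw_i a q n') * (g n * g n') := by
    have h3 : ∀ q : ℕ, (∑ n ∈ E, Fpw_i a q n * g n) ^ 2 =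
        ∑ n ∈ E, ∑ n' ∈ E, Fpw_i a q n * Fpw_i a q n' * (g n * g n') := by
      intro q
      rw [_root_.sq, Finset.sum_mul_sum]
      refine Finset.sum_congr rfl fun n _ => Finset.sum_congr rfl fun n' _ => by ring
    rw [Finset.sum_congr rfl fun q _ => h3 q, Finset.sum_comm]
    refine Finset.sum_congr rfl fun n _ => ?_
    rw [Finset.sum_comm]
    refine Finset.sum_congr rfl fun n' _ => ?_
    rw [Finset.sum_mul]
  have h4 : ∑ n ∈ E, ∑ n' ∈ E, (∑ q ∈ F, Fpw_i a q n * Fpw_i a q n') * (g n * g n') ≤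
      ∑ n ∈ E, ∑ n' ∈ E, ((if n = n' then (D : ℝ) else 0) + T) * (g n * g n') := by
    refine Finset.sum_le_sum fun n hn => Finset.sum_le_sum fun n' hn' => ?_
    exact mul_le_mul_of_nonneg_right (Fpw_two a hT hY hF hE hn hn') (mul_nonneg (hg0 n) (hg0 n'))
  have h5 : ∑ n ∈ E, ∑ n' ∈ E, ((if n = n' then (D : ℝ) else 0) + T) * (g n * g n') =
      (D : ℝ) * ∑ n ∈ E, g n ^ 2 + T * (∑ n ∈ E, g n) ^ 2 := by
    have h6 : ∀ n ∈ E, ∑ n' ∈ E, ((if n = n' then (D : ℝ) else 0) + T) * (g n * g n') =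
        (D : ℝ) * g n ^ 2 + T * (g n * ∑ n' ∈ E, g n') := by
      intro n hn
      have h7 : ∀ n' ∈ E, ((if n = n' then (D : ℝ) else 0) + T) * (g n * g n') =
          (if n = n' then (D : ℝ) * (g n * g n') else 0) + T * (g n * g n') := by
        intro n' _
        split_ifs <;> ring
      rw [Finset.sum_congr rfl h7, Finset.sum_add_distrib, Finset.sum_ite_eq, if_pos hn,
        ← Finset.mul_sum, ← Finset.mul_sum]
      ring
    rw [Finset.sum_congr rfl h6, Finset.sum_add_distrib, ← Finset.mul_sum, ← Finset.mul_sum,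
      ← Finset.sum_mul]
    ring
  have h8 : ∑ n ∈ E, g n ^ 2 ≤ T * W := by
    have h9 : ∑ n ∈ E, g n ^ 2 ≤ ∑ n ∈ E, T * g n := by
      refine Finset.sum_le_sum fun n hn => ?_
      rw [_root_.sq]
      exact mul_le_mul_of_nonneg_right (hgT n hn) (hg0 n)
    rw [← Finset.mul_sum] at h9
    exact h9.trans (mul_le_mul_of_nonneg_left hgW hT0)
  have h10 : (∑ n ∈ E, g n) ^ 2 ≤ W ^ 2 := pow_le_pow_left₀ hW0 hgW 2
  have hD0 : (0 : ℝ) ≤ D := Nat.cast_nonneg D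
  have h11 : ∑ q ∈ F, (∑ n ∈ E, Fpw_i a q n * g n) ^ 2 ≤ (D : ℝ) * T * W + T * W ^ 2 := by
    rw [h2]
    refine h4.trans ?_
    rw [h5]
    have h12 := mul_le_mul_of_nonneg_left h8 hD0
    have h13 := mul_le_mul_of_nonneg_left h10 hT0
    linarith
  have h14 : 0 ≤ (D : ℝ) * T * W + T * W ^ 2 := by positivity
  calc (∑ q ∈ F, ∑ n ∈ E, Fpw_i a q n * g n) ^ 2
      ≤ (F.card : ℝ) * ∑ q ∈ F, (∑ n ∈ E, Fpw_i a q n * g n) ^ 2 := h1
    _ ≤ (F.card : ℝ) * ((D : ℝ) * T * W + T * W ^ 2) :=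
        mul_le_mul_of_nonneg_left h11 (Nat.cast_nonneg _)
    _ ≤ (D : ℝ) * ((D : ℝ) * T * W + T * W ^ 2) :=
        mul_le_mul_of_nonneg_right (Fpw_card hF) h14

end Pool.Agent.Lib.MK
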