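import Pool.Agent.Lib.MK.SpecB

/-! Module Fsp: splitting. -/

set_option autoImplicit false

namespace Pool.Agent.Lib.MK

open Finset Pool.Agent.Lib.EH3 Pool.Agent.Lib.TB Pool.Agent.Results.MP_00e23e_nt Pool.Agent.Lib.MI

private theorem Fsp_lt {V : Finset ℤ} {v v' : ℤ} (hv : v ∈ V) (h : v < v') :
    (V.filter (fun x => x < v)).card < (V.filter (fun x => x < v')).card := by
  apply Finset.card_lt_card
  rw [Finset.ssubset_iff_of_subset (fun x hx => by
    rw [Finset.mem_filter] at hx ⊢
    exact ⟨hx.1, hx.2.trans h⟩)]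
  refine ⟨v, Finset.mem_filter.2 ⟨hv, h⟩, fun hx => ?_⟩
  exact lt_irrefl _ (Finset.mem_filter.1 hx).2

private theorem Fsp_eq {V : Finset ℤ} {v v' : ℤ} (hv : v ∈ V) (hv' : v' ∈ V)
    (h : (V.filter (fun x => x < v)).card = (V.filter (fun x => x < v')).card) : v = v' := by
  rcases lt_trichotomy v v' with h1 | h1 | h1
  · have := Fsp_lt hv h1
    omega
  · exact h1
  · have := Fsp_lt hv' h1
    omega

theorem tFsp : FspStmt := by
  classical
  intro M s t K B g hK hB hV hG
  set V : ℕ → Finset ℤ := fun n => (M.filter (fun d => t d = n)).image s with hVd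
  have hmem : ∀ d ∈ M, s d ∈ V (t d) := fun d hd =>
    Finset.mem_image.2 ⟨d, Finset.mem_filter.2 ⟨hd, rfl⟩, rfl⟩
  set i : ℕ → ℕ := fun d => ((V (t d)).filter (fun x => x < s d)).card with hi
  have hmap : ∀ d ∈ M, i d ∈ Finset.range ⌊K⌋₊ := by
    intro d hd
    rw [Finset.mem_range]
    have h1 : i d < (V (t d)).card := by
      apply Finset.card_lt_card
      rw [Finset.ssubset_iff_of_subset (Finset.filter_subset _ _)]
      exact ⟨s d, hmem d hd, fun h => lt_irrefl _ (Finset.mem_filter.1 h).2⟩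
    exact h1.trans_le (Nat.le_floor (hV (t d)))
  rw [← Finset.sum_fiberwise_of_maps_to hmap]
  have hone : ∀ j ∈ Finset.range ⌊K⌋₊, ∑ d ∈ M with i d = j, g d ≤ B := by
    intro j _
    refine hG _ (fun n => if h : ∃ d ∈ M.filter (fun d => i d = j), t d = n then s h.choose else 0)
      (Finset.filter_subset _ _) ?_
    intro d hd
    have h : ∃ d' ∈ M.filter (fun d => i d = j), t d' = t d := ⟨d, hd, rfl⟩
    rw [dif_pos h]
    obtain ⟨h1, h2⟩ := h.choose_spec
    rw [Finset.mem_filter] at h1 hd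
    have h3 : ((V (t d)).filter (fun x => x < s d)).card = j := hd.2
    have h4 : ((V (t h.choose)).filter (fun x => x < s h.choose)).card = j := h1.2
    have h5 := hmem _ h1.1
    rw [h2] at h4 h5
    exact Fsp_eq (hmem d hd.1) h5 (h3.trans h4.symm)
  refine (Finset.sum_le_card_nsmul _ _ _ hone).trans ?_
  rw [Finset.card_range, nsmul_eq_mul]
  exact mul_le_mul_of_nonneg_right (Nat.floor_le hK) hB

end Pool.Agent.Lib.MK

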