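import Pool.Agent.Lib.MK.SpecT
import Pool.Agent.Lib.MI.SpecT1

/-! MP_00e23e_nt, Lib/MK, chapter T1, module T1Avc: average of the correlations (class a r depending on r). -/

namespace Pool.Agent.Lib.MK

open Finset Pool.Agent.Lib.EH3 Pool.Agent.Lib.TB Pool.Agent.Results.MP_00e23e_nt Pool.Agent.Lib.MI

private lemma T1Avc_add (a : ℕ → ℤ) (R S V L L' : ℕ) (Hs : Finset ℤ) (r0 : ℕ → ℕ)
    (f g : ℤ → ℤ → ℕ → ℕ → ℕ → ℕ → ℕ → ℝ) :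
    MK.t1Sum a R S V L L' Hs r0 (fun h h' w w' r u s2 => f h h' w w' r u s2 + g h h' w w' r u s2) =
      MK.t1Sum a R S V L L' Hs r0 f + MK.t1Sum a R S V L L' Hs r0 g := by
  unfold MK.t1Sum
  simp only [← sum_add_distrib]
  refine sum_congr rfl fun h _ => sum_congr rfl fun h' _ => sum_congr rfl fun w _ =>
    sum_congr rfl fun w' _ => sum_congr rfl fun r _ => sum_congr rfl fun u _ =>
      sum_congr rfl fun s2 _ => ?_
  split_ifs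
  · rfl
  · rw [add_zero]

private lemma T1Avc_mul (a : ℕ → ℤ) (R S V L L' : ℕ) (Hs : Finset ℤ) (r0 : ℕ → ℕ) (c : ℝ)
    (f : ℤ → ℤ → ℕ → ℕ → ℕ → ℕ → ℕ → ℝ) :
    MK.t1Sum a R S V L L' Hs r0 (fun h h' w w' r u s2 => c * f h h' w w' r u s2) =
      c * MK.t1Sum a R S V L L' Hs r0 f := by
  unfold MK.t1Sum
  simp only [mul_sum]
  refine sum_congr rfl fun h _ => sum_congr rfl fun h' _ => sum_congr rfl fun w _ =>
    sum_congr rfl fun w' _ => sum_congr rfl fun r _ => sum_congr rfl fun u _ =>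
      sum_congr rfl fun s2 _ => ?_
  split_ifs
  · rfl
  · rw [mul_zero]

theorem tT1Avc (hBnd : MI.T1BndStmt) (hGav : T1GavStmt) (hNum : T1NumStmt) : T1AvcStmt := by
  intro X T a k R S N H V L L' Hs r0 hT hR hS hL hV hHs hX1 hX2 hX3
  have hT1 : 1 ≤ T := hT.1
  have hT0 : 0 ≤ T := by linarith
  set P : ℝ := Real.sqrt ((L' : ℝ) * V) * S with hP
  set W : ℝ := (N : ℝ) / (Real.sqrt ((L : ℝ) * V) * S) with hW
  have hP0 : 0 ≤ P := by positivity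
  have hW0 : 0 ≤ W := by positivity
  -- the bound for one d
  have h1 : ∀ d ∈ Ico 1 L, MK.t1Sum a R S V L L' Hs r0
      (fun h h' w w' r u s2 => ‖t1C (a r) h h' k r (r0 r) u w w' s2 N d‖) ≤
      8 * (H : ℝ) ^ 2 * V * R * (S : ℝ) ^ 2 * (3 * T ^ 6 * P) +
      T ^ 4 * W * MK.t1Sum a R S V L L' Hs r0 (fun h h' w w' r u s2 => Real.sqrt ((Nat.gcd w w' : ℝ) *
        (Int.gcd (t1e h h' w w' * d) ((r * u * Nat.lcm w w' : ℕ) : ℤ) : ℝ) *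
        (Int.gcd (t1e h h' w w' * d) s2 : ℝ))) := by
    intro d hd
    rw [mem_Ico] at hd
    have h2 := hNum a R S H V L L' Hs r0 (3 * T ^ 6 * P) hV (by positivity) hHs
    rw [← T1Avc_mul]
    refine le_trans ?_ (add_le_add_left h2 _)
    rw [← T1Avc_add]
    refine MK.t1_Sum_mono ?_
    intro h hh h' hh' w hw w' hw' r hr u hu s2 hs2 he hr0 hG
    rw [mem_Ioc] at hw hw' hr
    refine hBnd X T (a r) h h' k S r (r0 r) u w w' s2 N d H V L L' hT hr0.1 hr0.2.1 hr0.2.2 hS hL hV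
      hw.1 hw.2 hw'.1 hw'.2 (hHs h hh).2 (hHs h' hh').2 hd.1 hd.2.le he hG ?_ hX2
    refine le_trans ?_ hX1
    have h3 : (r : ℝ) ≤ 2 * R := by exact_mod_cast hr.2
    have h4 : (0 : ℝ) ≤ (S : ℝ) ^ 2 * V := by positivity
    nlinarith
  have h5 := sum_le_sum h1
  refine h5.trans ?_
  rw [sum_add_distrib, sum_const, nsmul_eq_mul, ← mul_sum]
  have h6 := hGav X T a R S H V L L' Hs r0 hT hR hS hV hHs hX2 hX3
  have h7 : T ^ 4 * W * ∑ d ∈ Ico 1 L, MK.t1Sum a R S V L L' Hs r0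
      (fun h h' w w' r u s2 => Real.sqrt ((Nat.gcd w w' : ℝ) *
        (Int.gcd (t1e h h' w w' * d) ((r * u * Nat.lcm w w' : ℕ) : ℤ) : ℝ) *
        (Int.gcd (t1e h h' w w' * d) s2 : ℝ))) ≤
      T ^ 4 * W * (64 * T ^ 7 * ((L : ℝ) * (H : ℝ) ^ 2 * V * R * (S : ℝ) ^ 2)) :=
    mul_le_mul_of_nonneg_left h6 (by positivity)
  have h8 : (((Ico 1 L).card : ℕ) : ℝ) ≤ L := by
    rw [Nat.card_Ico]
    exact_mod_cast Nat.sub_le L 1
  have h9 : (((Ico 1 L).card : ℕ) : ℝ) * (8 * (H : ℝ) ^ 2 * V * R * (S : ℝ) ^ 2 * (3 * T ^ 6 * P)) ≤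
      L * (8 * (H : ℝ) ^ 2 * V * R * (S : ℝ) ^ 2 * (3 * T ^ 6 * P)) :=
    mul_le_mul_of_nonneg_right h8 (by positivity)
  have h10 : T ^ 6 ≤ T ^ 11 := pow_le_pow_right₀ hT1 (by norm_num)
  have h11 : (L : ℝ) * (8 * (H : ℝ) ^ 2 * V * R * (S : ℝ) ^ 2 * (3 * T ^ 6 * P)) ≤
      64 * T ^ 11 * ((L : ℝ) * (H : ℝ) ^ 2 * V * R * (S : ℝ) ^ 2) * P := by
    have h12 : (0 : ℝ) ≤ (L : ℝ) * (H : ℝ) ^ 2 * V * R * (S : ℝ) ^ 2 * P := by positivity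
    calc (L : ℝ) * (8 * (H : ℝ) ^ 2 * V * R * (S : ℝ) ^ 2 * (3 * T ^ 6 * P))
        = 24 * T ^ 6 * ((L : ℝ) * (H : ℝ) ^ 2 * V * R * (S : ℝ) ^ 2 * P) := by ring
      _ ≤ 64 * T ^ 11 * ((L : ℝ) * (H : ℝ) ^ 2 * V * R * (S : ℝ) ^ 2 * P) := by
          refine mul_le_mul_of_nonneg_right ?_ h12
          nlinarith [pow_nonneg hT0 11]
      _ = _ := by ring
  calc _ ≤ L * (8 * (H : ℝ) ^ 2 * V * R * (S : ℝ) ^ 2 * (3 * T ^ 6 * P)) +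
        T ^ 4 * W * (64 * T ^ 7 * ((L : ℝ) * (H : ℝ) ^ 2 * V * R * (S : ℝ) ^ 2)) := add_le_add h9 h7
    _ ≤ 64 * T ^ 11 * ((L : ℝ) * (H : ℝ) ^ 2 * V * R * (S : ℝ) ^ 2) * P +
        T ^ 4 * W * (64 * T ^ 7 * ((L : ℝ) * (H : ℝ) ^ 2 * V * R * (S : ℝ) ^ 2)) :=
        add_le_add_left h11 _
    _ = _ := by ring

end Pool.Agent.Lib.MK
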