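import Pool.Agent.Lib.MK.SpecT
import Pool.Agent.Lib.MI.T2d

/-!
MP_00e23e_nt, directory Lib/MK, module T2d (helper87): the final theorem of the chapter T2 for a class depending on r,
`tT2 : TV.VsqStmt → T2Stmt`.
-/

namespace Pool.Agent.Lib.MK

open Finset Pool.Agent.Lib.EH3 Pool.Agent.Lib.TB Pool.Agent.Results.MP_00e23e_nt Pool.Agent.Lib.MI

/-- rearrangement -/
private lemma T2d_rearr (a : ℕ → ℤ) (k R S N : ℕ) (Hs : Finset ℤ) (γ : ℤ → ℕ → ℕ → ℕ → ℂ)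
    (ω : ℕ → ℕ → ℂ) :
    ∑ h ∈ Hs, TT a h k R S N (γ h) ω =
      ∑ r ∈ Ioc R (2 * R), ∑ n ∈ Ioc N (2 * N), ω r n * ∑ u ∈ t2U Hs S, t2F (a r) k γ u r n := by
  have h1 : ∀ h, TT a h k R S N (γ h) ω = ∑ r ∈ Ioc R (2 * R), ∑ s1 ∈ Ioc S (2 * S),
      ∑ s2 ∈ Ioc S (2 * S), ∑ n ∈ Ioc N (2 * N), ω r n * t2F (a r) k γ (h, s1, s2) r n := by
    intro h
    unfold TT
    refine sum_congr rfl fun r _ => sum_congr rfl fun s1 _ => sum_congr rfl fun s2 _ => ?_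
    rw [mul_sum]
    refine sum_congr rfl fun n _ => ?_
    unfold t2F t2K
    split_ifs
    · ring
    · ring
  rw [sum_congr rfl fun h _ => h1 h, sum_comm]
  refine sum_congr rfl fun r _ => ?_
  have h2 : ∀ n, ω r n * ∑ u ∈ t2U Hs S, t2F (a r) k γ u r n =
      ∑ h ∈ Hs, ∑ s1 ∈ Ioc S (2 * S), ∑ s2 ∈ Ioc S (2 * S), ω r n * t2F (a r) k γ (h, s1, s2) r n := by
    intro n
    unfold t2U
    rw [mul_sum, sum_product]
    refine sum_congr rfl fun h _ => ?_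
    rw [sum_product]
  rw [sum_congr rfl fun n _ => h2 n]
  symm
  rw [sum_comm]
  refine sum_congr rfl fun h _ => ?_
  rw [sum_comm]
  refine sum_congr rfl fun s1 _ => ?_
  rw [sum_comm]

/-- the sum over r of one correlation -/
private lemma T2d_row (hV : TV.VsqStmt) {X T : ℝ} (hT : Tau X T) (a : ℕ → ℤ) (k : ℕ) {R S N H : ℕ}
    (hR : 1 ≤ R) {Hs : Finset ℤ}
    (hH : ∀ h ∈ Hs, h ≠ 0 ∧ |h| ≤ (H : ℤ)) (hX1 : 2 * (R : ℝ) ≤ X) (hX2 : 8 * (H : ℝ) * (S : ℝ) ^ 2 ≤ X)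
    {p : (ℤ × ℕ × ℕ) × (ℤ × ℕ × ℕ)} (hp : p ∈ t2U Hs S ×ˢ t2U Hs S) (hD : t2D p ≠ 0) :
    ∑ r ∈ Ioc R (2 * R), ‖t2I (a r) k N r p‖ ≤
      2 * T ^ 2 * N + 91 * T ^ 2 * ((S : ℝ) ^ 4 * (R * Real.sqrt R)) := by
  have hR0 : (0 : ℝ) < R := by exact_mod_cast hR
  have hT1 := hT.1
  unfold t2U at hp
  simp only [mem_product, mem_Ioc] at hp
  obtain ⟨⟨hh, ha1, ha2⟩, ⟨hh', hb1, hb2⟩⟩ := hp
  have hDX : ((t2D p).natAbs : ℝ) ≤ X := by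
    have h1 := hH _ hh
    have h2 := hH _ hh'
    have i1 : |p.1.1 * ((p.2.2.1 : ℤ) * p.2.2.2)| ≤ (H : ℤ) * ((2 * S) * (2 * S)) := by
      rw [abs_mul, abs_of_nonneg (by positivity : (0 : ℤ) ≤ (p.2.2.1 : ℤ) * p.2.2.2)]
      apply mul_le_mul h1.2 _ (by positivity) (by positivity)
      apply mul_le_mul (by exact_mod_cast hb1.2) (by exact_mod_cast hb2.2) (by positivity)
        (by positivity)
    have i2 : |p.2.1 * ((p.1.2.1 : ℤ) * p.1.2.2)| ≤ (H : ℤ) * ((2 * S) * (2 * S)) := by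
      rw [abs_mul, abs_of_nonneg (by positivity : (0 : ℤ) ≤ (p.1.2.1 : ℤ) * p.1.2.2)]
      apply mul_le_mul h2.2 _ (by positivity) (by positivity)
      apply mul_le_mul (by exact_mod_cast ha1.2) (by exact_mod_cast ha2.2) (by positivity)
        (by positivity)
    have i3 : |t2D p| ≤ 8 * (H : ℤ) * (S : ℤ) ^ 2 := by
      unfold t2D t2T
      refine (abs_sub _ _).trans ?_
      nlinarith
    have i4 : ((t2D p).natAbs : ℤ) ≤ 8 * (H : ℤ) * (S : ℤ) ^ 2 := by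
      rw [Int.natCast_natAbs]
      exact i3
    have i5 : ((t2D p).natAbs : ℝ) ≤ 8 * (H : ℝ) * (S : ℝ) ^ 2 := by exact_mod_cast i4
    exact i5.trans hX2
  have hτ : ((t2D p).natAbs.divisors.card : ℝ) ≤ T := hT.2.2 _ (by omega) hDX
  have hsum := t2_sum_gcd hD R
  calc ∑ r ∈ Ioc R (2 * R), ‖t2I (a r) k N r p‖
      ≤ ∑ r ∈ Ioc R (2 * R), (T * ((N : ℝ) * (Int.gcd (t2D p) r : ℝ) / R) +
        91 * T ^ 2 * ((S : ℝ) ^ 4 * Real.sqrt R)) := by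
        refine sum_le_sum fun r hr => ?_
        rw [mem_Ioc] at hr
        exact t2_In hV hT hR hX1 hr.1 hr.2 ha1.2 ha2.2 hb1.2 hb2.2
    _ = T * ((N : ℝ) / R) * ∑ r ∈ Ioc R (2 * R), (Int.gcd (t2D p) r : ℝ) +
        (R : ℝ) * (91 * T ^ 2 * ((S : ℝ) ^ 4 * Real.sqrt R)) := by
        rw [sum_add_distrib, sum_const, Nat.card_Ioc, show 2 * R - R = R by omega, nsmul_eq_mul,
          mul_sum]
        congr 1
        refine sum_congr rfl fun r _ => ?_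
        ring
    _ ≤ T * ((N : ℝ) / R) * (2 * (R : ℝ) * T) +
        (R : ℝ) * (91 * T ^ 2 * ((S : ℝ) ^ 4 * Real.sqrt R)) := by
        have h1 : 2 * (R : ℝ) * ((t2D p).natAbs.divisors.card : ℝ) ≤ 2 * (R : ℝ) * T :=
          mul_le_mul_of_nonneg_left hτ (by positivity)
        have h2 : 0 ≤ T * ((N : ℝ) / R) := by positivity
        have h3 := mul_le_mul_of_nonneg_left (hsum.trans h1) h2
        linarith
    _ = _ := by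
        field_simp

theorem tT2 (hV : TV.VsqStmt) : T2Stmt := by
  refine ⟨364, by norm_num, 2, ?_⟩
  intro X T a k R S N H Hs γ ω hT hR hS hN hH1 hX hHs hγ hω
  have hR0 : (1 : ℝ) ≤ R := by exact_mod_cast hR
  have hS0 : (1 : ℝ) ≤ S := by exact_mod_cast hS
  have hN0 : (1 : ℝ) ≤ N := by exact_mod_cast hN
  have hH0 : (1 : ℝ) ≤ H := by exact_mod_cast hH1
  have hT1 := hT.1
  have hR2 : (R : ℝ) ≤ (R : ℝ) ^ 2 := by nlinarith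
  have hS2 : (S : ℝ) ^ 2 ≤ (S : ℝ) ^ 4 := pow_le_pow_right₀ hS0 (by norm_num)
  have hH2 : (H : ℝ) ≤ (H : ℝ) ^ 2 := by nlinarith
  have hR21 : (1 : ℝ) ≤ (R : ℝ) ^ 2 := one_le_pow₀ hR0
  have hS41 : (1 : ℝ) ≤ (S : ℝ) ^ 4 := one_le_pow₀ hS0
  have hN21 : (1 : ℝ) ≤ (N : ℝ) ^ 2 := one_le_pow₀ hN0
  have hH21 : (1 : ℝ) ≤ (H : ℝ) ^ 2 := one_le_pow₀ hH0
  have hX1 : 2 * (R : ℝ) ≤ X := by
    have h1 : (R : ℝ) * 1 * 1 * 1 ≤ (R : ℝ) ^ 2 * (S : ℝ) ^ 4 * (N : ℝ) ^ 2 * (H : ℝ) ^ 2 := by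
      gcongr
    nlinarith
  have hX2 : 8 * (H : ℝ) * (S : ℝ) ^ 2 ≤ X := by
    have h1 : 1 * (S : ℝ) ^ 2 * 1 * (H : ℝ) ≤ (R : ℝ) ^ 2 * (S : ℝ) ^ 4 * (N : ℝ) ^ 2 * (H : ℝ) ^ 2 := by
      gcongr
    nlinarith
  set U := t2U Hs S with hU
  set B : ℝ := 2 * T ^ 2 * N + 91 * T ^ 2 * ((S : ℝ) ^ 4 * (R * Real.sqrt R)) with hB
  have hB0 : 0 ≤ B := by positivity
  have hcU : (U.card : ℝ) ≤ 2 * (H : ℝ) * (S : ℝ) ^ 2 := t2_card_U hHs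
  have hcD : (((U ×ˢ U).filter (fun p => t2D p = 0)).card : ℝ) ≤ 2 * (H : ℝ) * (S : ℝ) ^ 2 * T ^ 2 :=
    t2_count hT hHs (by nlinarith)
  -- the sum of the correlations
  have hcor : ∑ r ∈ Ioc R (2 * R), ∑ p ∈ U ×ˢ U, ‖t2I (a r) k N r p‖ ≤
      2 * (H : ℝ) * (S : ℝ) ^ 2 * T ^ 2 * (R * N) + (2 * (H : ℝ) * (S : ℝ) ^ 2) ^ 2 * B := by
    rw [sum_comm]
    calc ∑ p ∈ U ×ˢ U, ∑ r ∈ Ioc R (2 * R), ‖t2I (a r) k N r p‖
        ≤ ∑ p ∈ U ×ˢ U, ((if t2D p = 0 then (R : ℝ) * N else 0) + B) := by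
          refine sum_le_sum fun p hp => ?_
          by_cases hD : t2D p = 0
          · rw [if_pos hD]
            calc ∑ r ∈ Ioc R (2 * R), ‖t2I (a r) k N r p‖ ≤ ∑ r ∈ Ioc R (2 * R), (N : ℝ) :=
                  sum_le_sum fun r _ => t2_I_triv (a r) k N r p
              _ = (R : ℝ) * N := by
                  rw [sum_const, Nat.card_Ioc, show 2 * R - R = R by omega, nsmul_eq_mul]
              _ ≤ _ := by linarith
          · rw [if_neg hD, zero_add]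
            exact T2d_row hV hT a k hR hHs hX1 hX2 hp hD
      _ = (((U ×ˢ U).filter (fun p => t2D p = 0)).card : ℝ) * (R * N) +
          ((U ×ˢ U).card : ℝ) * B := by
          rw [sum_add_distrib, ← sum_filter, sum_const, sum_const, nsmul_eq_mul, nsmul_eq_mul]
      _ ≤ 2 * (H : ℝ) * (S : ℝ) ^ 2 * T ^ 2 * (R * N) + (2 * (H : ℝ) * (S : ℝ) ^ 2) ^ 2 * B := by
          have h1 : ((U ×ˢ U).card : ℝ) ≤ (2 * (H : ℝ) * (S : ℝ) ^ 2) ^ 2 := by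
            rw [card_product]
            push_cast
            rw [sq]
            exact mul_le_mul hcU hcU (Nat.cast_nonneg _) (by positivity)
          have h2 := mul_le_mul_of_nonneg_right hcD (by positivity : (0 : ℝ) ≤ (R : ℝ) * N)
          have h3 := mul_le_mul_of_nonneg_right h1 hB0
          linarith
  have hmain : ‖∑ h ∈ Hs, TT a h k R S N (γ h) ω‖ ^ 2 ≤ (R : ℝ) * N *
      (2 * (H : ℝ) * (S : ℝ) ^ 2 * T ^ 2 * (R * N) + (2 * (H : ℝ) * (S : ℝ) ^ 2) ^ 2 * B) := by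
    rw [T2d_rearr]
    refine (t2_cauchy R N ω (fun r n => ∑ u ∈ t2U Hs S, t2F (a r) k γ u r n) hω).trans ?_
    apply mul_le_mul_of_nonneg_left _ (by positivity)
    refine (sum_le_sum fun r _ => t2_expand (a r) k N r (t2U Hs S) γ hγ).trans ?_
    exact hcor
  refine hmain.trans ?_
  have hR00 : (R : ℝ) ≠ 0 := by positivity
  have hS00 : (S : ℝ) ≠ 0 := by positivity
  have hN00 : (N : ℝ) ≠ 0 := by positivity
  have e1 : (364 : ℝ) * T ^ 2 * ((R : ℝ) * (S : ℝ) ^ 2 * N) ^ 2 *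
      (Real.sqrt R * (H : ℝ) ^ 2 * (S : ℝ) ^ 4 / N + (H : ℝ) / (S : ℝ) ^ 2 + (H : ℝ) ^ 2 / R) =
      364 * (T ^ 2 * ((R : ℝ) ^ 2 * (S : ℝ) ^ 8 * N * ((H : ℝ) ^ 2 * Real.sqrt R))) +
      364 * (T ^ 2 * ((R : ℝ) ^ 2 * (S : ℝ) ^ 2 * (N : ℝ) ^ 2 * H)) +
      364 * (T ^ 2 * ((R : ℝ) * (S : ℝ) ^ 4 * (N : ℝ) ^ 2 * (H : ℝ) ^ 2)) := by
    field_simp
  have e2 : (R : ℝ) * N *
      (2 * (H : ℝ) * (S : ℝ) ^ 2 * T ^ 2 * (R * N) + (2 * (H : ℝ) * (S : ℝ) ^ 2) ^ 2 * B) =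
      364 * (T ^ 2 * ((R : ℝ) ^ 2 * (S : ℝ) ^ 8 * N * ((H : ℝ) ^ 2 * Real.sqrt R))) +
      2 * (T ^ 2 * ((R : ℝ) ^ 2 * (S : ℝ) ^ 2 * (N : ℝ) ^ 2 * H)) +
      8 * (T ^ 2 * ((R : ℝ) * (S : ℝ) ^ 4 * (N : ℝ) ^ 2 * (H : ℝ) ^ 2)) := by
    rw [hB]
    ring
  rw [e1, e2]
  have p1 : 0 ≤ T ^ 2 * ((R : ℝ) ^ 2 * (S : ℝ) ^ 2 * (N : ℝ) ^ 2 * H) := by positivity
  have p2 : 0 ≤ T ^ 2 * ((R : ℝ) * (S : ℝ) ^ 4 * (N : ℝ) ^ 2 * (H : ℝ) ^ 2) := by positivity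
  linarith

end Pool.Agent.Lib.MK
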