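import Pool.Agent.Lib.MI.AllD
import Pool.Agent.Lib.MI.AllT1
import Pool.Agent.Lib.MI.AllT2
import Pool.Agent.Lib.MI.LAll
import Pool.Agent.Lib.MI.Bgr
import Pool.Agent.Lib.MI.Bid
import Pool.Agent.Lib.MI.Bph
import Pool.Agent.Lib.MI.Bta
import Pool.Agent.Lib.MI.AllA
import Pool.Agent.Lib.MI.AllF
import Pool.Agent.Lib.MJ.Ecn
import Pool.Agent.Lib.MJ.Egc
import Pool.Agent.Lib.MJ.Euu
import Pool.Agent.Lib.MK.T1Gav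
import Pool.Agent.Lib.MK.T1Num
import Pool.Agent.Lib.MK.T1Avc
import Pool.Agent.Lib.MK.T1Avi
import Pool.Agent.Lib.MK.T1Cau
import Pool.Agent.Lib.MK.T1Fin
import Pool.Agent.Lib.MK.T2d
import Pool.Agent.Lib.MK.Dca
import Pool.Agent.Lib.MK.Dex
import Pool.Agent.Lib.MK.Ena
import Pool.Agent.Lib.MK.Eea
import Pool.Agent.Lib.MK.Eeb
import Pool.Agent.Lib.MK.Eec
import Pool.Agent.Lib.MK.Eba
import Pool.Agent.Lib.MK.Dgm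
import Pool.Agent.Lib.MK.Dgo
import Pool.Agent.Lib.MK.Efi
import Pool.Agent.Lib.MK.Fsp
import Pool.Agent.Lib.MK.Bdh
import Pool.Agent.Lib.MK.Bt1
import Pool.Agent.Lib.MK.Bt2
import Pool.Agent.Lib.MK.Brm
import Pool.Agent.Lib.MK.Blg
import Pool.Agent.Lib.MK.Bbo
import Pool.Agent.Lib.MK.Bbt
import Pool.Agent.Lib.MK.Bdr
import Pool.Agent.Lib.MK.Bds
import Pool.Agent.Lib.MK.Bfi
import Pool.Agent.Lib.MK.Anm
import Pool.Agent.Lib.MK.Atr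
import Pool.Agent.Lib.MK.Acb
import Pool.Agent.Lib.MK.Abi
import Pool.Agent.Lib.MK.Afi
import Pool.Agent.Lib.MK.Fpw
import Pool.Agent.Lib.MK.Fth
import Pool.Agent.Lib.MK.Fpi
import Pool.Agent.Lib.MK.Fps
import Pool.Agent.Lib.MK.Fmi

/-! MP_00e23e_nt, directory Lib/MK: THEOREM MI (version 5), without hypotheses. -/

namespace Pool.Agent.Lib.MK

open Pool.Agent.Lib.TB

private theorem AllM_phs : MI.T1PhsStmt := MI.tT1Phs MI.tT1Fac (MI.tT1Pha MI.tT1Fac) (MI.tT1Phb MI.tT1Fac)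

private theorem AllM_bnd : MI.T1BndStmt :=
  MI.tT1Bnd MI.tSsb MI.tT1Cmp MI.tT1Fac MI.tT1Fht MI.tT1Gcd MI.tT1Gsj

/-- Chapter T1. -/
theorem tT1All : T1Stmt :=
  tT1Fin tT1Cau (MI.tT1Dia MI.tT1Gsa)
    (tT1Avi MI.tT1Vdc MI.tT1Fac AllM_phs tT1Num (tT1Avc AllM_bnd (tT1Gav MI.tT1Gsa MI.tT1Gsb) tT1Num))

/-- Chapter T2. -/
theorem tT2All : T2Stmt := tT2 (TV.tVsq (TV.tVsr (TN.tKsq TN.tWeil) TV.tVrm))

/-- Chapter D. -/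
theorem tDAll : DspStmt :=
  tEfi (tDca MI.tDtr) tDex
    (tEba MI.tDtr (tEea (MJ.tEuu MJ.tEcn MJ.tEgc)) (tEeb (tEna MJ.tEcn) MI.tDpr) (tEec (tEna MJ.tEcn) MI.tDpr))
    (tDgo (MI.tDta (MI.tDid MI.tDfo MI.tDph) MI.tDgg) (tDgm (MI.tDco MI.tDgg) MI.tDspn (MI.tDsy MI.tDph)))

/-- Chapter B. -/
theorem tBAll : BAllStmt :=
  tBfi (tBds (tBdr (tBbo tDAll (tBt1 tT1All tBdh) MI.tBta) (tBbt tDAll (tBt2 tT2All tBdh) MI.tBta) MI.tBgr)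
    tFsp MI.tBta) MI.tBid (tBrm MI.tBph) (tBlg MI.tLrgAll) MI.tLrgAll MI.tBta

/-- Chapter A. -/
theorem tAAll : AAllStmt :=
  tAfi MI.tAva CO.tVgb (MI.tAty MI.tAct) (tAbi MI.tAcl (tAtr tAnm) tAcb (MI.tAtu tTauk)) (MI.tAtu tTauk)

/-- Chapter F. -/
theorem tFAll : FAllStmt :=
  tFmi (tFps (tFpi (tFth MI.tFtp MI.tFtn (MI.tAtu tTauk) tFpw) MI.tFab (MI.tAtu tTauk)) tFsp MI.tFgr MI.tFtn)
    (MI.tFbv BV.aExt KF.tRse MI.tFtn)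

/-- THEOREM MI, version 5. -/
theorem tMI : MIStmt := by
  intro δ τ κ hδ hτ hκ h1 h2
  obtain ⟨ε, hε0, hε1, hB⟩ := tBAll δ τ κ hδ hτ hκ h1 h2
  have hA : CoreStmt (1 / 2 + δ) τ κ :=
    tAAll (1 / 2 + δ) τ κ ε hε0 hε1 (by linarith) hτ (by linarith) hκ (by linarith) hB
  exact tFAll (1 / 2 + δ) τ κ (by linarith) hτ (by linarith) hκ (by linarith) hA

end Pool.Agent.Lib.MK
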