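import Pool.Agent.Lib.MK.SpecB

/-!
MP_00e23e_nt, directory Lib/MK (THEOREM MI, version 5, architect helper34), chapters A and F: the modules of Lib/MI and
Lib/MJ with a class a (t q) depending on t q (in Anm, Atr, Fpw: a q arbitrary).
RULES. Module X: file Pool/Agent/Lib/MK/X.lean, first line `import Pool.Agent.Lib.MK.SpecA`, then
`namespace Pool.Agent.Lib.MK` and `open Finset Pool.Agent.Lib.EH3 Pool.Agent.Lib.TB Pool.Agent.Results.MP_00e23e_nt Pool.Agent.Lib.MI`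
(MK.BlStmt, MK.CoreStmt, ... win over those of MI; write MJ.X for the ones of Lib/MJ), private lemmas with names
starting with X_, final theorem `theorem tX (h1 : AStmt) ... : XStmt`; the statements listed under Uses are hypotheses, in
this order. MODEL file: copy it and replace a by a q or a (t q). Never use congr!. Below 60 s.
-/

namespace Pool.Agent.Lib.MK

open Finset Pool.Agent.Lib.EH3 Pool.Agent.Lib.TB Pool.Agent.Results.MP_00e23e_nt Pool.Agent.Lib.MI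

/-- Module Anm (theorem tAnm). Uses: nothing. MODEL: Lib/MI/Anm.lean. -/
def AnmStmt : Prop := ∀ (T : ℝ) (D K1 K2 : ℕ) (a : ℕ → ℤ) (F : Finset ℕ) (t : ℕ → ℕ), Tau D T → 1 ≤ D → K1 ≤ K2 →
  (∀ q ∈ F, Squarefree q ∧ t q ∣ q ∧ q ≤ D) →
  ∑ q ∈ F, ∑ k ∈ Ioc K1 K2, ‖Ek (a q) (t q) q k‖ ≤ 2 * T ^ 2 * ((K2 : ℝ) - K1) + 2 * D

/-- Module Atr (theorem tAtr). Uses: AnmStmt. MODEL: Lib/MI/Atr.lean. -/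
def AtrStmt : Prop := ∀ (X T : ℝ) (D K G Y : ℕ) (a : ℕ → ℤ) (F : Finset ℕ) (t : ℕ → ℕ), Tau X T → 1 ≤ D → (D : ℝ) ≤ X →
  (Y : ℝ) ≤ X → 1 ≤ Y → 2 ≤ K → (∀ q ∈ F, Squarefree q ∧ t q ∣ q ∧ q ≤ D) →
  ∑ q ∈ F, ∑ k ∈ (Icc 1 Y).filter
      (fun k : ℕ => (K : ℝ) * Real.log k < G + 1 ∨ (K : ℝ) * Real.log Y - 2 < K * Real.log k),
    (k.divisors.card : ℝ) * ‖Ek (a q) (t q) q k‖ ≤
      4 * T ^ 3 * (Real.exp (((G : ℝ) + 1) / K) + (Y : ℝ) / K + 1 + D)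

/-- Module Acb (theorem tAcb; BlStmt α τ κ ε is a hypothesis inside). Uses: nothing. MODEL: Lib/MJ/Acb.lean. -/
def AcbStmt : Prop := ∀ α τ κ ε κ0 : ℝ, 0 < ε → ε < 1 / 100 → BlStmt α τ κ ε → 0 < κ0 → κ0 < κ →
  ∃ η C x0 : ℝ, 0 < η ∧ 0 ≤ C ∧ 3 ≤ x0 ∧ ∀ (x : ℝ) (a : ℕ → ℤ) (Y K i j : ℕ) (f g : ℕ → ℂ) (F : Finset ℕ) (t : ℕ → ℕ),
  x0 ≤ x → (Y : ℝ) ≤ x → 4 ≤ K → (∀ m, ‖f m‖ ≤ 1) →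
  (∀ n, ‖g n‖ ≤ 1) → (∀ m, f m ≠ 0 → x ^ ((1 : ℝ) / 3) < m ∧ (m : ℝ) ≤ x ^ ((2 : ℝ) / 3)) →
  (K : ℝ) * (Real.log 4 + (1 - ε / 2) * Real.log x) ≤ (i : ℝ) + j → (i : ℝ) + j + 2 ≤ K * Real.log Y →
  (∀ q ∈ F, Md α τ κ κ0 x (t q) q ∧ Int.gcd (a (t q)) q = 1) →
  ∑ q ∈ F, ‖∑ m ∈ Icc 1 Y, ∑ n ∈ Icc 1 Y, cl K i f m * cl K j g n * Ek (a (t q)) (t q) q (m * n)‖ ≤ C * x ^ (1 - η)

/-- Module Abi (theorem tAbi). Uses: MI.AclStmt, AtrStmt, AcbStmt, MI.AtuStmt. MODEL: Lib/MJ/Abi.lean (AtrStmt with the function q ↦ a (t q)). -/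
def AbiStmt : Prop := ∀ α τ κ ε κ0 : ℝ, α ≤ 3 / 5 → 0 < ε → ε < 1 / 100 → BlStmt α τ κ ε → 0 < κ0 → κ0 < κ →
  ∃ η C x0 : ℝ, 0 < η ∧ 0 ≤ C ∧ 3 ≤ x0 ∧ ∀ (x : ℝ) (a : ℕ → ℤ) (Y : ℕ) (f g : ℕ → ℂ) (F : Finset ℕ) (t : ℕ → ℕ),
  x0 ≤ x → (Y : ℝ) ≤ x → (∀ m, ‖f m‖ ≤ 1) → (∀ n, ‖g n‖ ≤ 1) →
  (∀ m, f m ≠ 0 → x ^ ((1 : ℝ) / 3) < m ∧ (m : ℝ) ≤ x ^ ((2 : ℝ) / 3)) →
  (∀ q ∈ F, Md α τ κ κ0 x (t q) q ∧ Int.gcd (a (t q)) q = 1) →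
  ∑ q ∈ F, ‖∑ m ∈ Icc 1 Y, ∑ n ∈ Icc 1 (Y / m), f m * g n * Ek (a (t q)) (t q) q (m * n)‖ ≤ C * x ^ (1 - η)

/-- Module Afi (theorem tAfi). STATEMENT AAllStmt (MK/Stm.lean). Uses: MI.AvaStmt, CO.VgbStmt, MI.AtyStmt, AbiStmt, MI.AtuStmt. MODEL: Lib/MJ/Afi.lean. -/
def AfiStmt : Prop := AAllStmt

/-- Module Fpw (theorem tFpw). Uses: nothing. MODEL: Lib/MJ/Fpw.lean (if it is not in the repository yet, look at the proof below).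
Proof. Let c q = ∑_{n ∈ E, q ∣ n - a q} g n. Cauchy: (∑_{q ∈ F} c q)^2 ≤ card F ∑_q (c q)^2 ≤ D ∑_{n,n' ∈ E} g n g n' #{q ∈ F : q ∣ n - a q, q ∣ n' - a q}; for n = n' the number is ≤ D, for n ≠ n' the q divide |n - n'| ≤ Y ≤ X, at most T of
them. So it is ≤ D (D ∑ g(n)^2 + T (∑ g)^2) ≤ D (D T W + T W^2) (g ≤ T). -/
def FpwStmt : Prop := ∀ (X T W : ℝ) (a : ℕ → ℤ) (D Y : ℕ) (F E : Finset ℕ) (g : ℕ → ℝ), Tau X T → (Y : ℝ) ≤ X →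
  (∀ q ∈ F, 1 ≤ q ∧ q ≤ D) → E ⊆ Icc 1 Y → (∀ n, 0 ≤ g n) → (∀ n ∈ E, g n ≤ T) → ∑ n ∈ E, g n ≤ W →
  (∑ q ∈ F, ∑ n ∈ E, (if (q : ℤ) ∣ (n : ℤ) - a q then g n else 0)) ^ 2 ≤
    (D : ℝ) * ((D : ℝ) * T * W + T * W ^ 2)

/-- Module Fth (theorem tFth). Uses: MI.FtpStmt, MI.FtnStmt, MI.AtuStmt, FpwStmt. MODEL: Lib/MJ/Fth.lean (FpwStmt with the function q ↦ a (t q)). -/
def FthStmt : Prop := ∀ α τ κ κ0 : ℝ, α ≤ 3 / 5 → 0 ≤ τ → τ ≤ 1 / 3 → CoreStmt α τ κ → 0 < κ0 → κ0 < κ →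
  ∃ η C x0 : ℝ, 0 < η ∧ 0 ≤ C ∧ 3 ≤ x0 ∧ ∀ (x : ℝ) (a : ℕ → ℤ) (Y : ℕ) (F : Finset ℕ) (t : ℕ → ℕ), x0 ≤ x →
  (Y : ℝ) ≤ x → (∀ q ∈ F, Md α τ κ κ0 x (t q) q ∧ Int.gcd (a (t q)) q = 1) →
  ∑ q ∈ F, ‖∑ p ∈ (Icc 1 Y).filter Nat.Prime, ((Real.log p : ℝ) : ℂ) * Ek (a (t q)) (t q) q p‖ ≤ C * x ^ (1 - η)

/-- Module Fpi (theorem tFpi). Uses: FthStmt, MI.FabStmt, MI.AtuStmt. MODEL: Lib/MJ/Fpi.lean. -/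
def FpiStmt : Prop := ∀ α τ κ κ0 : ℝ, α ≤ 3 / 5 → 0 ≤ τ → τ ≤ 1 / 3 → CoreStmt α τ κ → 0 < κ0 → κ0 < κ →
  ∃ η C x0 : ℝ, 0 < η ∧ 0 ≤ C ∧ 3 ≤ x0 ∧ ∀ (x : ℝ) (a : ℕ → ℤ) (Y : ℕ) (F : Finset ℕ) (t : ℕ → ℕ), x0 ≤ x →
  (Y : ℝ) ≤ x →
  (∀ q ∈ F, Md α τ κ κ0 x (t q) q ∧ Int.gcd (a (t q)) q = 1) → ∑ q ∈ F, |df Y q (t q) (a (t q))| ≤ C * x ^ (1 - η)

/-- Module Fps (theorem tFps). Uses: FpiStmt, FspStmt, MI.FgrStmt, MI.FtnStmt. MODEL: Lib/MJ/Fps.lean (there M is split by the value of s; here, for every Y_j, FspStmt (MK/SpecB.lean) with K = x^η, B = C1 x^(1-η1),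
g d = |df Y_j d (t d) (s d)|: for G ⊆ M and s d = a (t d) on G the sum over G is the one of FpiStmt). -/
def FpsStmt : Prop := ∀ α τ κ κ0 : ℝ, α ≤ 3 / 5 → 0 ≤ τ → τ ≤ 1 / 3 → CoreStmt α τ κ → 0 < κ0 → κ0 < κ →
  ∃ η C x0 : ℝ, 0 < η ∧ η ≤ 1 / 10 ∧ 0 ≤ C ∧ 3 ≤ x0 ∧
  ∀ (x : ℝ) (s : ℕ → ℤ) (t : ℕ → ℕ) (y : ℕ → ℝ) (M : Finset ℕ), x0 ≤ x →
  (∀ n : ℕ, (((M.filter (fun d => t d = n)).image s).card : ℝ) ≤ x ^ η) → (∀ d, 2 ≤ y d ∧ y d ≤ x) →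
  (∀ d ∈ M, Md α τ κ κ0 x (t d) d ∧ Int.gcd (s d) d = 1) →
  ∑ d ∈ M, |df (y d) d (t d) (s d)| ≤ C * x ^ (1 - η)

/-- Module Fmi (theorem tFmi). STATEMENT FAllStmt (MK/Stm.lean). Uses: FpsStmt, MI.FbvStmt. MODEL: Lib/MJ/Fmi.lean. -/
def FmiStmt : Prop := FAllStmt

end Pool.Agent.Lib.MK
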