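import Pool.Agent.Lib.MK.Stm

/-!
MP_00e23e_nt, directory Lib/MK (THEOREM MI, version 5, architect helper34), chapter B: the modules of Lib/MI and Lib/MJ with
a class a r depending on r = w.1 (a : ℕ → ℤ), in Bfi a class a (t q).
RULES. Module X: file Pool/Agent/Lib/MK/X.lean, first line `import Pool.Agent.Lib.MK.SpecB`, then
`namespace Pool.Agent.Lib.MK` and `open Finset Pool.Agent.Lib.EH3 Pool.Agent.Lib.TB Pool.Agent.Results.MP_00e23e_nt Pool.Agent.Lib.MI`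
(MK.TT, MK.Pr, MK.DspStmt, ... win over those of MI; write MJ.X for the ones of Lib/MJ), private lemmas with
names starting with X_, final theorem `theorem tX (h1 : AStmt) ... : XStmt`; the statements listed under Uses are hypotheses, in
this order. MODEL file: copy it and replace a by a r, a w.1 or a (t q). Never use congr!. Below 60 s.
-/

namespace Pool.Agent.Lib.MK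

open Finset Pool.Agent.Lib.EH3 Pool.Agent.Lib.TB Pool.Agent.Results.MP_00e23e_nt Pool.Agent.Lib.MI

/-- Module Fsp (theorem tFsp; splitting). Uses: nothing.
Proof. V n = the image of s on {d ∈ M : t d = n}. For d ∈ M let i(d) = number of the elements of V (t d) smaller than s d: i(d) < card V (t d) ≤ K, so i(d) < ⌊K⌋₊. For every i < ⌊K⌋₊ let G = {d ∈ M : i(d) = i} and a n = the element v of V n with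
exactly i smaller elements in V n (0 if there is none; it is unique: for v < v' in V n the elements smaller than v are among those smaller than v', and v is one more). So s d = a (t d) for d ∈ G. Sum over i. -/
def FspStmt : Prop := ∀ (M : Finset ℕ) (s : ℕ → ℤ) (t : ℕ → ℕ) (K B : ℝ) (g : ℕ → ℝ), 0 ≤ K → 0 ≤ B →
  (∀ n : ℕ, (((M.filter (fun d => t d = n)).image s).card : ℝ) ≤ K) →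
  (∀ (G : Finset ℕ) (a : ℕ → ℤ), G ⊆ M → (∀ d ∈ G, s d = a (t d)) → ∑ d ∈ G, g d ≤ B) →
  ∑ d ∈ M, g d ≤ K * B

/-- Module Bdh (theorem tBdh). Uses: nothing. MODEL: Lib/MI/Bdh.lean. -/
def BdhStmt : Prop := ∀ (a : ℕ → ℤ) (k R S M N H Y0 : ℕ) (P : Finset (ℕ × ℕ)) (γ : ℤ → ℕ → ℕ → ℕ → ℂ) (ω : ℕ → ℕ → ℂ)
    (E : ℝ), 1 ≤ R → 1 ≤ S → 1 ≤ M → 1 ≤ Y0 → 4 * (R * S ^ 2) ≤ M * Y0 → 0 ≤ E → Cf P R S M γ →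
  (∀ (i : ℕ) (Hs : Finset ℤ) (γ' : ℤ → ℕ → ℕ → ℕ → ℂ), 2 ^ i * Y0 ≤ 2 * H + Y0 →
    (∀ h ∈ Hs, h ≠ 0 ∧ |h| ≤ ((2 ^ i * Y0 : ℕ) : ℤ)) → (∀ h r s1 s2, ‖γ' h r s1 s2‖ ≤ 1) →
    (∀ h r s1 s2, γ' h r s1 s2 ≠ 0 → (r, s1) ∈ P ∧ (r, s2) ∈ P) →
    ‖∑ h ∈ Hs, TT a h k R S N (γ' h) ω‖ ≤ 2 ^ i * E) →
  ‖∑ h ∈ Icc (-(H : ℤ)) H, TT a h k R S N (γ h) ω‖ ≤ 32 * M * E / (R * (S : ℝ) ^ 2)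

/-- Module Bt1 (theorem tBt1). Uses: T1Stmt, BdhStmt. MODEL: Lib/MI/Bt1.lean. -/
def Bt1Stmt : Prop := ∃ C : ℝ, 0 < C ∧ ∃ A : ℕ, ∀ (X T : ℝ) (a : ℕ → ℤ) (k R S M N H Y0 V L L' : ℕ) (r0 v : ℕ → ℕ)
    (P : Finset (ℕ × ℕ)) (γ : ℤ → ℕ → ℕ → ℕ → ℂ) (ω : ℕ → ℕ → ℂ), Tau X T → 1 ≤ R → 1 ≤ S → 1 ≤ M → 1 ≤ N →
  1 ≤ Y0 → 2 ≤ V → 1 ≤ L →
  100 * (R : ℝ) ^ 2 * (S : ℝ) ^ 4 * (N : ℝ) ^ 2 * (V : ℝ) ^ 2 * (2 * H + Y0 : ℝ) ^ 2 * (L : ℝ) ^ 2 ≤ X →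
  2 * R ≤ N → 4 * (R * S ^ 2) ≤ M * Y0 → Cf P R S M γ → (∀ r n, ‖ω r n‖ ≤ 1) →
  (∀ w ∈ P, r0 w.1 ∣ w.1 ∧ L < r0 w.1 ∧ r0 w.1 ≤ L' ∧ v w.2 ∣ w.2 ∧ V < v w.2 ∧ v w.2 ≤ 2 * V) →
  ‖∑ h ∈ Icc (-(H : ℤ)) H, TT a h k R S N (γ h) ω‖ ≤ C * T ^ A * ((M : ℝ) * N) *
    Real.sqrt ((Y0 : ℝ) / V + (Y0 : ℝ) ^ 2 * Real.sqrt (1 / (L : ℝ) + 1 / (Real.sqrt ((L : ℝ) * V) * S) +
      Real.sqrt ((L' : ℝ) * V) * S / N))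

/-- Module Bt2 (theorem tBt2). Uses: T2Stmt, BdhStmt. MODEL: Lib/MI/Bt2.lean. -/
def Bt2Stmt : Prop := ∃ C : ℝ, 0 < C ∧ ∃ A : ℕ, ∀ (X T : ℝ) (a : ℕ → ℤ) (k R S M N H Y0 : ℕ)
    (P : Finset (ℕ × ℕ)) (γ : ℤ → ℕ → ℕ → ℕ → ℂ) (ω : ℕ → ℕ → ℂ), Tau X T → 1 ≤ R → 1 ≤ S → 1 ≤ M → 1 ≤ N →
  1 ≤ Y0 → 100 * (R : ℝ) ^ 2 * (S : ℝ) ^ 4 * (N : ℝ) ^ 2 * (2 * H + Y0 : ℝ) ^ 2 ≤ X →
  4 * (R * S ^ 2) ≤ M * Y0 → Cf P R S M γ → (∀ r n, ‖ω r n‖ ≤ 1) →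
  ‖∑ h ∈ Icc (-(H : ℤ)) H, TT a h k R S N (γ h) ω‖ ≤ C * T ^ A * ((M : ℝ) * N) *
    Real.sqrt (Real.sqrt R * (Y0 : ℝ) ^ 2 * (S : ℝ) ^ 4 / N + (Y0 : ℝ) / (S : ℝ) ^ 2 + (Y0 : ℝ) ^ 2 / R)

open Classical in
/-- Module Brm (theorem tBrm). Uses: MI.BphStmt. MODEL: Lib/MJ/Brm.lean (for fixed t = w.1 the integer is a t). -/
def BrmStmt : Prop := ∀ (X T z : ℝ) (a : ℕ → ℤ) (D M N : ℕ) (G : Finset (ℕ × ℕ × ℕ)), Tau X T → 1 ≤ z →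
  1 ≤ M → 1 ≤ N → (D : ℝ) ≤ X → 4 * (M : ℝ) * N ≤ X → D ≤ M * N →
  (∀ w ∈ G, 1 ≤ w.1 ∧ 1 ≤ w.2.1 ∧ 1 ≤ w.2.2 ∧ w.1 ≤ D ∧ w.2.1 ≤ D ∧ w.2.2 ≤ D ∧
    ∀ p : ℕ, p.Prime → p ∣ w.2.2 → z < p) →
  ∑ w ∈ G, ∑ m ∈ Ioc M (2 * M), ∑ n ∈ Ioc N (2 * N),
    (if (w.1 : ℤ) ∣ ((m * n : ℕ) : ℤ) - a w.1 then 1 else 0) * (1 / (w.2.1.totient : ℝ)) *
      ((1 / (w.2.2.totient : ℝ) - 1 / (w.2.2 : ℝ)) + (if (m * n).Coprime w.2.2 then 0 else 1 / (w.2.2 : ℝ))) ≤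
    15 * T ^ 8 * ((M : ℝ) * N / z)

/-- Module Blg (theorem tBlg). Uses: MI.LrgStmt. MODEL: Lib/MI/Blg.lean (LrgStmt with the function w ↦ a w.1). -/
def BlgStmt : Prop := ∃ C : ℝ, 0 < C ∧ ∃ A : ℕ, ∀ (X T : ℝ) (a : ℕ → ℤ) (Z D M N : ℕ) (G : Finset (ℕ × ℕ × ℕ))
    (f g : ℕ → ℂ), Tau X T → 1 ≤ X → 1 ≤ Z → 1 ≤ M → 1 ≤ N → (D : ℝ) ≤ X → (M : ℝ) ≤ X → (N : ℝ) ≤ X →
  (∀ w ∈ G, 1 ≤ w.1 ∧ 1 ≤ w.2.1 ∧ 1 ≤ w.2.2 ∧ (w.2.2 : ℝ) ≤ X ∧ Squarefree (w.1 * w.2.1) ∧ w.1 * w.2.1 ≤ D ∧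
    Int.gcd (a w.1) ((w.1 * w.2.1 : ℕ) : ℤ) = 1 ∧ ∀ p : ℕ, p.Prime → p ∣ w.2.1 → Z < p) →
  (∀ m, ‖f m‖ ≤ 1) → (∀ n, ‖g n‖ ≤ 1) →
  ∑ w ∈ G, (1 / (w.2.2 : ℝ)) *
      ‖∑ m ∈ Ioc M (2 * M), ∑ n ∈ Ioc N (2 * N), f m * g n * Ek (a w.1) w.1 (w.1 * w.2.1) (m * n)‖ ≤
    C * T ^ A * (Real.sqrt ((M : ℝ) * N) * (Real.sqrt ((M : ℝ) * N) / Z + Real.sqrt M + Real.sqrt N + D))

/-- Module Bbo (theorem tBbo). Uses: DspStmt, Bt1Stmt, MI.BtaStmt. MODEL: Lib/MJ/Bbo.lean. -/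
def BboStmt : Prop := ∀ δ τ κ ε κ0 : ℝ, Par δ τ κ ε → 0 < κ0 → κ0 < κ → ∃ η C x0 : ℝ, 0 < η ∧
  ∀ (x : ℝ) (a : ℕ → ℤ) (M N R S V : ℕ) (P : Finset (ℕ × ℕ)) (f g : ℕ → ℂ), x0 ≤ x → Blk δ κ ε x M N R S →
  (N : ℝ) ≤ x ^ (1 / 2 - sg δ κ ε) → x ^ (yy δ κ ε + 4 * ε) ≤ 2 * V → (V : ℝ) ≤ x ^ (yy δ κ ε + κ + 4 * ε) →
  Pr a R S (x ^ κ0) P → (∀ w ∈ P, (∃ v : ℕ, v ∣ w.2 ∧ V < v ∧ v ≤ 2 * V) ∧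
    ∃ r0 : ℕ, r0 ∣ w.1 ∧ x ^ (4 * yy δ κ ε + 8 * ε) < r0 ∧ (r0 : ℝ) ≤ x ^ (4 * yy δ κ ε + 8 * ε + κ)) →
  (∀ m, ‖f m‖ ≤ 1) → (∀ n, ‖g n‖ ≤ 1) →
  ∑ w ∈ P, ‖∑ m ∈ Ioc M (2 * M), ∑ n ∈ Ioc N (2 * N), f m * g n * Dl (a w.1) w.1 w.2 (m * n)‖ ≤ C * x ^ (1 - η)

/-- Module Bbt (theorem tBbt). Uses: DspStmt, Bt2Stmt, MI.BtaStmt. MODEL: Lib/MJ/Bbt.lean. -/
def BbtStmt : Prop := ∀ δ τ κ ε κ0 : ℝ, Par δ τ κ ε → 0 < κ0 → κ0 < κ → ∃ η C x0 : ℝ, 0 < η ∧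
  ∀ (x : ℝ) (a : ℕ → ℤ) (M N R S : ℕ) (P : Finset (ℕ × ℕ)) (f g : ℕ → ℂ), x0 ≤ x → Blk δ κ ε x M N R S →
  x ^ (1 / 2 - sg δ κ ε) ≤ (N : ℝ) → Pr a R S (x ^ κ0) P →
  (∀ m, ‖f m‖ ≤ 1) → (∀ n, ‖g n‖ ≤ 1) →
  ∑ w ∈ P, ‖∑ m ∈ Ioc M (2 * M), ∑ n ∈ Ioc N (2 * N), f m * g n * Dl (a w.1) w.1 w.2 (m * n)‖ ≤ C * x ^ (1 - η)

/-- Module Bdr (theorem tBdr; all blocks, a function of r). Uses: BboStmt, BbtStmt, MI.BgrStmt. MODEL: Lib/MJ/Bds.lean. The functions u, s come from the greedy divisor (Bgr) and depend only on F, t, M, N, x; then for G ⊆ F and a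
the sum over the blocks as in the model, with P = the pairs (t q * u q, s q), q ∈ G, in the block: Pr a R S holds since gcd(a (t q u q), q) = 1. -/
def BdrStmt : Prop := ∀ δ τ κ ε κ0 : ℝ, Par δ τ κ ε → 0 < κ0 → κ0 < κ → ∃ η C x0 : ℝ, 0 < η ∧
  ∀ (x : ℝ) (M N : ℕ) (f g : ℕ → ℂ) (F : Finset ℕ) (t : ℕ → ℕ), x0 ≤ x → N ≤ M →
  x ^ ((1 : ℝ) / 3 - ε) ≤ N →
  x ^ (1 - ε) ≤ (M : ℝ) * N → (M : ℝ) * N ≤ x → (∀ m, ‖f m‖ ≤ 1) → (∀ n, ‖g n‖ ≤ 1) →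
  (∀ q ∈ F, Md (1 / 2 + δ) τ κ κ0 x (t q) q ∧ x ^ (1 / 2 - ε / 2) < (q : ℝ)) →
  ∃ u s : ℕ → ℕ, (∀ q ∈ F, q = t q * u q * s q ∧ ((t q * u q : ℕ) : ℝ) ≤ N * x ^ (-ε)) ∧
    ∀ (G : Finset ℕ) (a : ℕ → ℤ), G ⊆ F → (∀ q ∈ G, Int.gcd (a (t q * u q)) q = 1) →
    ∑ q ∈ G, ‖∑ m ∈ Ioc M (2 * M), ∑ n ∈ Ioc N (2 * N),
      f m * g n * Dl (a (t q * u q)) (t q * u q) (s q) (m * n)‖ ≤ C * x ^ (1 - η)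

/-- Module Bds (theorem tBds; a function of t). Uses: BdrStmt, FspStmt, MI.BtaStmt.
Proof. η1, C1, x1 from Bdr; C1 replaced by |C1|, x0 = max(x1, 1), η = η1/2, T = C2 x^(η1/2) from Bta (e = η1/2, A = 1): τ(n) ≤ T for 1 ≤ n ≤ x. u, s from Bdr. r q = t q u q divides q, q squarefree, so 1 ≤ r q ≤ q ≤ x^(1/2+δ) ≤ x
(Par: δ ≤ 1/86). Fsp with M := F, s q := a (t q), t := r, K := T, g := the norms, B := C1 x^(1-η1): on {q ∈ F : r q = n} the values a (t q) are among the a t', t' ∣ n, at most τ(n) ≤ T of them (the set is empty or 1 ≤ n ≤ x). If G ⊆ F and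
a (t q) = a' (r q) for q ∈ G then gcd(a' (r q), q) = 1 and Bdr applies to G and a'. Total ≤ C2 x^(η1/2) C1 x^(1-η1). -/
def BdsStmt : Prop := ∀ δ τ κ ε κ0 : ℝ, Par δ τ κ ε → 0 < κ0 → κ0 < κ → ∃ η C x0 : ℝ, 0 < η ∧
  ∀ (x : ℝ) (a : ℕ → ℤ) (M N : ℕ) (f g : ℕ → ℂ) (F : Finset ℕ) (t : ℕ → ℕ), x0 ≤ x → N ≤ M →
  x ^ ((1 : ℝ) / 3 - ε) ≤ N →
  x ^ (1 - ε) ≤ (M : ℝ) * N → (M : ℝ) * N ≤ x → (∀ m, ‖f m‖ ≤ 1) → (∀ n, ‖g n‖ ≤ 1) →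
  (∀ q ∈ F, Md (1 / 2 + δ) τ κ κ0 x (t q) q ∧ Int.gcd (a (t q)) q = 1 ∧ x ^ (1 / 2 - ε / 2) < (q : ℝ)) →
  ∃ u s : ℕ → ℕ, (∀ q ∈ F, q = t q * u q * s q ∧ ((t q * u q : ℕ) : ℝ) ≤ N * x ^ (-ε)) ∧
    ∑ q ∈ F, ‖∑ m ∈ Ioc M (2 * M), ∑ n ∈ Ioc N (2 * N),
      f m * g n * Dl (a (t q)) (t q * u q) (s q) (m * n)‖ ≤ C * x ^ (1 - η)

/-- Module Bfi (theorem tBfi). STATEMENT BAllStmt (MK/Stm.lean). Uses: BdsStmt, MI.BidStmt, BrmStmt, BlgStmt, MI.LrgStmt, MI.BtaStmt. MODEL: Lib/MJ/Bfi.lean (LrgStmt with the function w ↦ a w.1). -/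
def BfiStmt : Prop := BAllStmt

end Pool.Agent.Lib.MK
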