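import Pool.Agent.Lib.MK.Stm

/-!
MP_00e23e_nt, directory Lib/MK (THEOREM MI, version 5, architect helper34), chapter D: the modules of Lib/MI and Lib/MJ in
which r is summed, with a class a r depending on r (a : ℕ → ℤ). Everything for one fixed r (Ph, GdC, Bd, D1, D2, fz, MI.DtaStmt,
MI.DphStmt, MI.DsyStmt, MJ.EcnStmt, MJ.EuuStmt, ...) is used from Lib/MI, Lib/MJ with the integer a r.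
RULES. Module X: file Pool/Agent/Lib/MK/X.lean, first line `import Pool.Agent.Lib.MK.SpecD`, then
`namespace Pool.Agent.Lib.MK` and `open Finset Pool.Agent.Lib.EH3 Pool.Agent.Lib.TB Pool.Agent.Results.MP_00e23e_nt Pool.Agent.Lib.MI`
(MK.TT, MK.Pr, MK.DspStmt, ... win over those of MI; write MJ.EuuStmt, MJ.Sz etc. for the ones of Lib/MJ), private lemmas with
names starting with X_, final theorem `theorem tX (h1 : AStmt) ... : XStmt`; the statements listed under Uses are hypotheses, in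
this order. MODEL file: copy it and replace a by a r (inside the sums over r) or a w.1. Never use congr!. Below 60 s.
-/

namespace Pool.Agent.Lib.MK

open Finset Pool.Agent.Lib.EH3 Pool.Agent.Lib.TB Pool.Agent.Results.MP_00e23e_nt Pool.Agent.Lib.MI

/-- Module Dca (theorem tDca). Uses: MI.DtrStmt. MODEL: Lib/MI/Dca.lean. -/
def DcaStmt : Prop := ∀ (a : ℕ → ℤ) (R S M N : ℕ) (P : Finset (ℕ × ℕ)) (α β : ℕ → ℂ), 8 ≤ M →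
  (∀ w ∈ P, R < w.1 ∧ w.1 ≤ 2 * R ∧ S < w.2 ∧ w.2 ≤ 2 * S) → (∀ m, ‖α m‖ ≤ 1) →
  ∃ c : ℕ × ℕ → ℂ, (∀ w, ‖c w‖ ≤ 1) ∧ (∀ w, w ∉ P → c w = 0) ∧
    (∑ w ∈ P, ‖∑ m ∈ Ioc M (2 * M), ∑ n ∈ Ioc N (2 * N), α m * β n * Dl (a w.1) w.1 w.2 (m * n)‖) ^ 2 ≤
      (R : ℝ) * M * ∑ r ∈ Ioc R (2 * R), TR M (fun m =>
        ‖∑ s ∈ Ioc S (2 * S), c (r, s) * ∑ n ∈ Ioc N (2 * N), β n * Dl (a r) r s (m * n)‖ ^ 2)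

open Classical in
/-- Module Dex (theorem tDex). Uses: nothing. MODEL: Lib/MI/Dex.lean. -/
def DexStmt : Prop := ∀ (a : ℕ → ℤ) (R S M N : ℕ) (P : Finset (ℕ × ℕ)) (β : ℕ → ℂ) (c : ℕ × ℕ → ℂ), 8 ≤ M →
  (∀ n, ‖β n‖ ≤ 1) → (∀ w, ‖c w‖ ≤ 1) → (∀ w, w ∉ P → c w = 0) →
  ∑ r ∈ Ioc R (2 * R), TR M (fun m =>
      ‖∑ s ∈ Ioc S (2 * S), c (r, s) * ∑ n ∈ Ioc N (2 * N), β n * Dl (a r) r s (m * n)‖ ^ 2) ≤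
    ‖∑ r ∈ Ioc R (2 * R), ∑ s1 ∈ Ioc S (2 * S), ∑ s2 ∈ Ioc S (2 * S), ∑ n1 ∈ Ioc N (2 * N), ∑ n2 ∈ Ioc N (2 * N),
      (if GdC (a r) r s1 s2 n1 n2 then
        c (r, s1) * (starRingEnd ℂ) (c (r, s2)) * (β n1 * (starRingEnd ℂ) (β n2)) * Ph (a r) M r s1 s2 n1 n2 else 0)‖ +
    ∑ r ∈ Ioc R (2 * R), ∑ s1 ∈ Ioc S (2 * S), ∑ s2 ∈ Ioc S (2 * S), ∑ n1 ∈ Ioc N (2 * N), ∑ n2 ∈ Ioc N (2 * N),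
      (if Bd (a r) P r s1 s2 n1 n2 then ‖Ph (a r) M r s1 s2 n1 n2‖ else 0)

open Classical in
/-- Module Ena (theorem tEna). Uses: MJ.EcnStmt. MODEL: Lib/MJ/Ena.lean. -/
def EnaStmt : Prop := ∀ (X T z : ℝ) (a : ℕ → ℤ) (R S M N : ℕ) (P : Finset (ℕ × ℕ)), MJ.Sz X T z R S M N →
  Pr a R S z P →
  ∑ m ∈ Icc (M / 2) (3 * M), ∑ n ∈ Ioc N (2 * N),
    ((P.filter (fun w => ((w.1 * w.2 : ℕ) : ℤ) ∣ ((m * n : ℕ) : ℤ) - a w.1)).card : ℝ) ≤ 7 * T * ((M : ℝ) * N) ∧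
  ∑ m ∈ Icc (M / 2) (3 * M), ∑ n ∈ Ioc N (2 * N),
    (((P.image Prod.fst).filter (fun r : ℕ => (r : ℤ) ∣ ((m * n : ℕ) : ℤ) - a r)).card : ℝ) ≤ 7 * T * ((M : ℝ) * N)

open Classical in
/-- Module Eea (theorem tEea). Uses: MJ.EuuStmt (apply it with the integer a r and the set P.filter (fun w => w.1 = r), which satisfies MJ.Pr (a r) R S z; or with a P-indexed version of the filter). MODEL: Lib/MJ/Eea.lean. -/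
def EeaStmt : Prop := ∀ (X T z : ℝ) (a : ℕ → ℤ) (R S M N : ℕ) (P : Finset (ℕ × ℕ)), MJ.Sz X T z R S M N →
  Pr a R S z P →
  ∑ m ∈ Icc (M / 2) (3 * M), ∑ r ∈ Ioc R (2 * R), ∑ s1 ∈ Ioc S (2 * S), ∑ s2 ∈ Ioc S (2 * S),
    ∑ n1 ∈ Ioc N (2 * N), ∑ n2 ∈ Ioc N (2 * N),
      (if Bd (a r) P r s1 s2 n1 n2 then D1 (a r) r s1 (m * n1) * D1 (a r) r s2 (m * n2) else 0) ≤
    60 * T ^ 5 * ((M : ℝ) * N * (1 + N / ((R : ℝ) * z)))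

open Classical in
/-- Module Eeb (theorem tEeb). Uses: EnaStmt, MI.DprStmt. MODEL: Lib/MJ/Eeb.lean. -/
def EebStmt : Prop := ∀ (X T z : ℝ) (a : ℕ → ℤ) (R S M N : ℕ) (P : Finset (ℕ × ℕ)), MJ.Sz X T z R S M N →
  Pr a R S z P →
  ∑ m ∈ Icc (M / 2) (3 * M), ∑ r ∈ Ioc R (2 * R), ∑ s1 ∈ Ioc S (2 * S), ∑ s2 ∈ Ioc S (2 * S),
    ∑ n1 ∈ Ioc N (2 * N), ∑ n2 ∈ Ioc N (2 * N),
      (if Bd (a r) P r s1 s2 n1 n2 then D1 (a r) r s1 (m * n1) * D2 (a r) r s2 (m * n2) else 0) ≤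
    14 * T ^ 2 * ((M : ℝ) * N * (1 + N / ((R : ℝ) * z)))

open Classical in
/-- Module Eec (theorem tEec). Uses: EnaStmt, MI.DprStmt. MODEL: Lib/MJ/Eec.lean. -/
def EecStmt : Prop := ∀ (X T z : ℝ) (a : ℕ → ℤ) (R S M N : ℕ) (P : Finset (ℕ × ℕ)), MJ.Sz X T z R S M N →
  Pr a R S z P →
  ∑ m ∈ Icc (M / 2) (3 * M), ∑ r ∈ Ioc R (2 * R), ∑ s1 ∈ Ioc S (2 * S), ∑ s2 ∈ Ioc S (2 * S),
    ∑ n1 ∈ Ioc N (2 * N), ∑ n2 ∈ Ioc N (2 * N),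
      (if Bd (a r) P r s1 s2 n1 n2 then D2 (a r) r s1 (m * n1) * D2 (a r) r s2 (m * n2) else 0) ≤
    42 * T ^ 2 * ((M : ℝ) * N * (1 + N / ((R : ℝ) * z)))

open Classical in
/-- Module Eba (theorem tEba). Uses: MI.DtrStmt, EeaStmt, EebStmt, EecStmt. MODEL: Lib/MJ/Eba.lean. -/
def EbaStmt : Prop := ∀ (X T z : ℝ) (a : ℕ → ℤ) (R S M N : ℕ) (P : Finset (ℕ × ℕ)), MJ.Sz X T z R S M N →
  Pr a R S z P →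
  ∑ r ∈ Ioc R (2 * R), ∑ s1 ∈ Ioc S (2 * S), ∑ s2 ∈ Ioc S (2 * S), ∑ n1 ∈ Ioc N (2 * N), ∑ n2 ∈ Ioc N (2 * N),
      (if Bd (a r) P r s1 s2 n1 n2 then ‖Ph (a r) M r s1 s2 n1 n2‖ else 0) ≤
    520 * T ^ 5 * ((M : ℝ) * N * (1 + N / ((R : ℝ) * z)))

open Classical in
/-- Module Dgm (theorem tDgm). Uses: MI.DcoStmt, MI.DspnStmt, MI.DsyStmt. MODEL: Lib/MI/Dgm.lean. -/
def DgmStmt : Prop := ∀ (B : ℝ) (a : ℕ → ℤ) (R S M N H : ℕ) (P : Finset (ℕ × ℕ)) (β : ℕ → ℂ) (c : ℕ × ℕ → ℂ),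
  0 ≤ B → 1 ≤ R → 1 ≤ S → 1 ≤ N → 8 ≤ M → R ≤ N → 2 * H < R →
  (∀ w ∈ P, R < w.1 ∧ w.1 ≤ 2 * R ∧ S < w.2 ∧ w.2 ≤ 2 * S) → (∀ n, ‖β n‖ ≤ 1) → (∀ w, ‖c w‖ ≤ 1) →
  (∀ w, w ∉ P → c w = 0) →
  (∀ (k : ℕ) (γ : ℤ → ℕ → ℕ → ℕ → ℂ) (ω : ℕ → ℕ → ℂ), Cf P R S M γ → (∀ r n, ‖ω r n‖ ≤ 1) →
    ‖∑ h ∈ Icc (-(H : ℤ)) H, TT a h k R S N (γ h) ω‖ ≤ B) →
  ‖∑ h ∈ Icc (-(H : ℤ)) H, ∑ r ∈ Ioc R (2 * R), ∑ s1 ∈ Ioc S (2 * S), ∑ s2 ∈ Ioc S (2 * S),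
    ∑ n1 ∈ Ioc N (2 * N), ∑ n2 ∈ Ioc N (2 * N), (if GdC (a r) r s1 s2 n1 n2 then
      ga c M H h r s1 s2 * (β n1 * (starRingEnd ℂ) (β n2)) * fz (a r) h r s1 s2 n1 n2 else 0)‖ ≤ 4 * N / R * B

open Classical in
/-- Module Dgo (theorem tDgo). Uses: MI.DtaStmt, DgmStmt. MODEL: Lib/MI/Dgo.lean. -/
def DgoStmt : Prop := ∀ (B : ℝ) (a : ℕ → ℤ) (R S M N H : ℕ) (P : Finset (ℕ × ℕ)) (β : ℕ → ℂ) (c : ℕ × ℕ → ℂ),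
  0 ≤ B → 1 ≤ R → 1 ≤ S → 1 ≤ N → 8 ≤ M → 1 ≤ H → R ≤ N → 2 * H < R →
  (∀ w ∈ P, R < w.1 ∧ w.1 ≤ 2 * R ∧ S < w.2 ∧ w.2 ≤ 2 * S) → (∀ n, ‖β n‖ ≤ 1) → (∀ w, ‖c w‖ ≤ 1) →
  (∀ w, w ∉ P → c w = 0) →
  (∀ (k : ℕ) (γ : ℤ → ℕ → ℕ → ℕ → ℂ) (ω : ℕ → ℕ → ℂ), Cf P R S M γ → (∀ r n, ‖ω r n‖ ≤ 1) →
    ‖∑ h ∈ Icc (-(H : ℤ)) H, TT a h k R S N (γ h) ω‖ ≤ B) →
  ‖∑ r ∈ Ioc R (2 * R), ∑ s1 ∈ Ioc S (2 * S), ∑ s2 ∈ Ioc S (2 * S), ∑ n1 ∈ Ioc N (2 * N), ∑ n2 ∈ Ioc N (2 * N),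
      (if GdC (a r) r s1 s2 n1 n2 then
        c (r, s1) * (starRingEnd ℂ) (c (r, s2)) * (β n1 * (starRingEnd ℂ) (β n2)) * Ph (a r) M r s1 s2 n1 n2 else 0)‖ ≤
    4 * N / R * B + 32 * ((R : ℝ) * (S : ℝ) ^ 4 * (N : ℝ) ^ 2) / ((M : ℝ) * H)

/-- Module Efi (theorem tEfi). STATEMENT DspStmt (MK/Stm.lean). Uses: DcaStmt, DexStmt, EbaStmt, DgoStmt. MODEL: Lib/MJ/Efi.lean. -/
def EfiStmt : Prop := DspStmt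

end Pool.Agent.Lib.MK
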