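import Pool.Agent.Lib.MK.Stm

/-!
MP_00e23e_nt, directory Lib/MK (THEOREM MI, version 5, architect helper34), chapters T1 and T2: the modules of Lib/MI in
which r is summed, with a class a r depending on r (a : ℕ → ℤ). Everything for one fixed r (t1K, t1In, t1C, T1Gq, T1BndStmt,
T1FacStmt, T1PhsStmt, ...) is used from Lib/MI with the integer a r.
RULES. Module X: file Pool/Agent/Lib/MK/X.lean, first line `import Pool.Agent.Lib.MK.SpecT`, then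
`namespace Pool.Agent.Lib.MK` and `open Finset Pool.Agent.Lib.EH3 Pool.Agent.Lib.TB Pool.Agent.Results.MP_00e23e_nt Pool.Agent.Lib.MI`
(MK.TT, MK.t1Sum, MK.t1_Sum_mono, MK.T1GavStmt, ... win over those of MI), private lemmas with names starting with X_, final
theorem `theorem tX (h1 : AStmt) ... : XStmt`; the statements listed under Uses are hypotheses, in this order. MODEL file:
copy it and replace a by a r (inside the sums over r). Never use congr!. Below 60 s.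
-/

namespace Pool.Agent.Lib.MK

open Finset Pool.Agent.Lib.EH3 Pool.Agent.Lib.TB Pool.Agent.Results.MP_00e23e_nt Pool.Agent.Lib.MI

/-- Module T1Gav (theorem tT1Gav). Uses: MI.T1GsaStmt, MI.T1GsbStmt. MODEL: Lib/MI/T1Gav.lean (there the condition T1Gq, the only place of a, is dropped). -/
def T1GavStmt : Prop := ∀ (X T : ℝ) (a : ℕ → ℤ) (R S H V L L' : ℕ) (Hs : Finset ℤ) (r0 : ℕ → ℕ), Tau X T → 1 ≤ R →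
  1 ≤ S → 1 ≤ V → (∀ h ∈ Hs, h ≠ 0 ∧ |h| ≤ (H : ℤ)) → 4 * (H : ℝ) * V * L ≤ X → 4 * (V : ℝ) ^ 2 ≤ X →
  ∑ d ∈ Ico 1 L, t1Sum a R S V L L' Hs r0 (fun h h' w w' r u s2 => Real.sqrt ((Nat.gcd w w' : ℝ) *
      (Int.gcd (t1e h h' w w' * d) ((r * u * Nat.lcm w w' : ℕ) : ℤ) : ℝ) *
        (Int.gcd (t1e h h' w w' * d) s2 : ℝ))) ≤
    64 * T ^ 7 * ((L : ℝ) * (H : ℝ) ^ 2 * V * R * (S : ℝ) ^ 2)

/-- Module T1Num (theorem tT1Num). Uses: nothing. MODEL: Lib/MI/T1Num.lean. -/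
def T1NumStmt : Prop := ∀ (a : ℕ → ℤ) (R S H V L L' : ℕ) (Hs : Finset ℤ) (r0 : ℕ → ℕ) (B : ℝ), 1 ≤ V → 0 ≤ B →
  (∀ h ∈ Hs, h ≠ 0 ∧ |h| ≤ (H : ℤ)) →
  t1Sum a R S V L L' Hs r0 (fun _ _ _ _ _ _ _ => B) ≤ 8 * (H : ℝ) ^ 2 * V * R * (S : ℝ) ^ 2 * B

/-- Module T1Avc (theorem tT1Avc). Uses: MI.T1BndStmt, T1GavStmt, T1NumStmt. MODEL: Lib/MI/T1Avc.lean. -/
def T1AvcStmt : Prop := ∀ (X T : ℝ) (a : ℕ → ℤ) (k R S N H V L L' : ℕ) (Hs : Finset ℤ) (r0 : ℕ → ℕ), Tau X T → 1 ≤ R →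
  1 ≤ S → 1 ≤ L → 1 ≤ V → (∀ h ∈ Hs, h ≠ 0 ∧ |h| ≤ (H : ℤ)) → 16 * (R : ℝ) * (S : ℝ) ^ 2 * V ≤ X →
  4 * (H : ℝ) * V * L ≤ X → 4 * (V : ℝ) ^ 2 ≤ X →
  ∑ d ∈ Ico 1 L, t1Sum a R S V L L' Hs r0 (fun h h' w w' r u s2 => ‖t1C (a r) h h' k r (r0 r) u w w' s2 N d‖) ≤
    64 * T ^ 11 * ((L : ℝ) * (H : ℝ) ^ 2 * V * R * (S : ℝ) ^ 2) *
      ((N : ℝ) / (Real.sqrt ((L : ℝ) * V) * S) + Real.sqrt ((L' : ℝ) * V) * S)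

/-- Module T1Avi (theorem tT1Avi). Uses: MI.T1VdcStmt, MI.T1FacStmt, MI.T1PhsStmt, T1NumStmt, T1AvcStmt. MODEL: Lib/MI/T1Avi.lean. -/
def T1AviStmt : Prop := ∀ (X T : ℝ) (a : ℕ → ℤ) (k R S N H V L L' : ℕ) (Hs : Finset ℤ) (r0 : ℕ → ℕ), Tau X T → 1 ≤ R →
  1 ≤ S → 1 ≤ L → 1 ≤ V → 2 * R ≤ N → (∀ h ∈ Hs, h ≠ 0 ∧ |h| ≤ (H : ℤ)) → 16 * (R : ℝ) * (S : ℝ) ^ 2 * V ≤ X →
  4 * (H : ℝ) * V * L ≤ X → 4 * (V : ℝ) ^ 2 ≤ X →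
  t1Sum a R S V L L' Hs r0 (fun h h' w w' r u s2 => ‖t1In (a r) h h' k r u w w' s2 N‖) ≤
    46 * T ^ 6 * ((H : ℝ) ^ 2 * V * R * (S : ℝ) ^ 2 * N) *
      Real.sqrt (1 / (L : ℝ) + 1 / (Real.sqrt ((L : ℝ) * V) * S) + Real.sqrt ((L' : ℝ) * V) * S / N)

/-- Module T1Cau (theorem tT1Cau). Uses: nothing. MODEL: Lib/MI/T1Cau.lean. -/
def T1CauStmt : Prop := ∀ (a : ℕ → ℤ) (k R S N V L L' : ℕ) (r0 v : ℕ → ℕ) (Hs : Finset ℤ)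
    (γ : ℤ → ℕ → ℕ → ℕ → ℂ) (ω : ℕ → ℕ → ℂ),
  1 ≤ R → 1 ≤ S → 1 ≤ N → 1 ≤ V → (∀ h r s1 s2, ‖γ h r s1 s2‖ ≤ 1) → (∀ r n, ‖ω r n‖ ≤ 1) →
  (∀ h r s1 s2, γ h r s1 s2 ≠ 0 → r0 r ∣ r ∧ L < r0 r ∧ r0 r ≤ L' ∧ v s1 ∣ s1 ∧ V < v s1 ∧ v s1 ≤ 2 * V) →
  ‖∑ h ∈ Hs, TT a h k R S N (γ h) ω‖ ^ 2 ≤ 2 * (R : ℝ) * (S : ℝ) ^ 2 * N / V *
    (2 * (R : ℝ) * (S : ℝ) ^ 2 * N / V * (∑ h ∈ Hs, ∑ h' ∈ Hs, ∑ w ∈ Ioc V (2 * V), ∑ w' ∈ Ioc V (2 * V),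
        (if t1e h h' w w' = 0 then (1 : ℝ) else 0)) +
      t1Sum a R S V L L' Hs r0 (fun h h' w w' r u s2 => ‖t1In (a r) h h' k r u w w' s2 N‖))

/-- Module T1Fin (theorem tT1Fin : T1CauStmt → MI.T1DiaStmt → T1AviStmt → T1Stmt, T1Stmt of Lib/MK/Stm.lean). Uses: T1CauStmt, MI.T1DiaStmt, T1AviStmt. MODEL: Lib/MI/T1Fin.lean. -/
def T1FinStmt : Prop := T1Stmt

/-- Module T2d (theorem tT2 : TV.VsqStmt → T2Stmt, T2Stmt of Lib/MK/Stm.lean). MODEL: Lib/MI/T2d.lean (import it; t2_rearr, t2_row and tT2 change). -/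
def T2dStmt : Prop := T2Stmt

end Pool.Agent.Lib.MK
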