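import Pool.Agent.Lib.MJ.SpecG
import Pool.Agent.Lib.MI.T1Base

/-!
MP_00e23e_nt, directory Lib/MK (architect helper34; THEOREM MI, version 5): the residue class may depend arbitrarily on
t(d) (all classes modulo t(d) inside the sum), and for every value of t(d) it is one of x^η integers of any size. The chapters
W, L and all modules of T1, T2, D for one fixed r are those of Lib/MI, Lib/MJ. The new point: the class a r may depend on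
r in the dispersion method (all its Cauchy inequalities and complete sums keep r fixed).
-/

namespace Pool.Agent.Lib.MK

open Finset Pool.Agent.Lib.EH3 Pool.Agent.Lib.TB Pool.Agent.Results.MP_00e23e_nt Pool.Agent.Lib.MI

open Classical in
/-- the sums of the dispersion for fixed h and n2 = n1 + k r; the class a r depends on r -/
noncomputable def TT (a : ℕ → ℤ) (h : ℤ) (k R S N : ℕ) (γ : ℕ → ℕ → ℕ → ℂ) (ω : ℕ → ℕ → ℂ) : ℂ :=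
  ∑ r ∈ Ioc R (2 * R), ∑ s1 ∈ Ioc S (2 * S), ∑ s2 ∈ Ioc S (2 * S), γ r s1 s2 *
    ∑ n ∈ Ioc N (2 * N), if Gd (a r) r s1 s2 n (n + k * r) then ω r n * fz (a r) h r s1 s2 n (n + k * r) else 0

/-- the pairs (r, s) of the dispersion -/
def Pr (a : ℕ → ℤ) (R S : ℕ) (z : ℝ) (P : Finset (ℕ × ℕ)) : Prop :=
  ∀ w ∈ P, R < w.1 ∧ w.1 ≤ 2 * R ∧ S < w.2 ∧ w.2 ≤ 2 * S ∧ Squarefree (w.1 * w.2) ∧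
    Int.gcd (a w.1) ((w.1 * w.2 : ℕ) : ℤ) = 1 ∧ ∀ p : ℕ, p.Prime → p ∣ w.2 → z < p

/-- Chapter T1. -/
def T1Stmt : Prop := ∃ C : ℝ, 0 < C ∧ ∃ A : ℕ, ∀ (X T : ℝ) (a : ℕ → ℤ) (k R S N H V L L' : ℕ) (r0 v : ℕ → ℕ)
    (Hs : Finset ℤ) (γ : ℤ → ℕ → ℕ → ℕ → ℂ) (ω : ℕ → ℕ → ℂ), Tau X T → 1 ≤ R → 1 ≤ S → 1 ≤ N → 1 ≤ H → 2 ≤ V →
  1 ≤ L → 100 * (R : ℝ) ^ 2 * (S : ℝ) ^ 4 * (N : ℝ) ^ 2 * (V : ℝ) ^ 2 * (H : ℝ) ^ 2 * (L : ℝ) ^ 2 ≤ X →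
  2 * R ≤ N → (∀ h ∈ Hs, h ≠ 0 ∧ |h| ≤ (H : ℤ)) → (∀ h r s1 s2, ‖γ h r s1 s2‖ ≤ 1) → (∀ r n, ‖ω r n‖ ≤ 1) →
  (∀ h r s1 s2, γ h r s1 s2 ≠ 0 → r0 r ∣ r ∧ L < r0 r ∧ r0 r ≤ L' ∧ v s1 ∣ s1 ∧ V < v s1 ∧ v s1 ≤ 2 * V) →
  ‖∑ h ∈ Hs, TT a h k R S N (γ h) ω‖ ^ 2 ≤ C * T ^ A * ((R : ℝ) * (S : ℝ) ^ 2 * N) ^ 2 *
    ((H : ℝ) / V + (H : ℝ) ^ 2 * Real.sqrt (1 / (L : ℝ) + 1 / (Real.sqrt ((L : ℝ) * V) * S) +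
      Real.sqrt ((L' : ℝ) * V) * S / N))

/-- Chapter T2. -/
def T2Stmt : Prop := ∃ C : ℝ, 0 < C ∧ ∃ A : ℕ, ∀ (X T : ℝ) (a : ℕ → ℤ) (k R S N H : ℕ) (Hs : Finset ℤ)
    (γ : ℤ → ℕ → ℕ → ℕ → ℂ) (ω : ℕ → ℕ → ℂ), Tau X T → 1 ≤ R → 1 ≤ S → 1 ≤ N → 1 ≤ H →
  100 * (R : ℝ) ^ 2 * (S : ℝ) ^ 4 * (N : ℝ) ^ 2 * (H : ℝ) ^ 2 ≤ X →
  (∀ h ∈ Hs, h ≠ 0 ∧ |h| ≤ (H : ℤ)) → (∀ h r s1 s2, ‖γ h r s1 s2‖ ≤ 1) → (∀ r n, ‖ω r n‖ ≤ 1) →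
  ‖∑ h ∈ Hs, TT a h k R S N (γ h) ω‖ ^ 2 ≤ C * T ^ A * ((R : ℝ) * (S : ℝ) ^ 2 * N) ^ 2 *
    (Real.sqrt R * (H : ℝ) ^ 2 * (S : ℝ) ^ 4 / N + (H : ℝ) / (S : ℝ) ^ 2 + (H : ℝ) ^ 2 / R)

/-- Chapter D. The dispersion method with the exact Fourier identity. -/
def DspStmt : Prop := ∃ C : ℝ, 0 < C ∧ ∃ A : ℕ, ∀ (X T z B : ℝ) (a : ℕ → ℤ) (R S M N H : ℕ) (P : Finset (ℕ × ℕ))
    (α β : ℕ → ℂ), Tau X T → 1 ≤ z → 0 ≤ B → 1 ≤ S → 1 ≤ N → 8 ≤ M → 1 ≤ H → R ≤ N → 2 * H < R →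
  100 * (M : ℝ) ^ 2 * (N : ℝ) ^ 2 * (R : ℝ) ^ 2 * (S : ℝ) ^ 4 ≤ X → R * S ^ 2 ≤ M * N →
  Pr a R S z P → (∀ m, ‖α m‖ ≤ 1) → (∀ n, ‖β n‖ ≤ 1) →
  (∀ (k : ℕ) (γ : ℤ → ℕ → ℕ → ℕ → ℂ) (ω : ℕ → ℕ → ℂ), Cf P R S M γ → (∀ r n, ‖ω r n‖ ≤ 1) →
    ‖∑ h ∈ Icc (-(H : ℤ)) H, TT a h k R S N (γ h) ω‖ ≤ B) →
  (∑ w ∈ P, ‖∑ m ∈ Ioc M (2 * M), ∑ n ∈ Ioc N (2 * N), α m * β n * Dl (a w.1) w.1 w.2 (m * n)‖) ^ 2 ≤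
    C * T ^ A * ((R : ℝ) * (M : ℝ) ^ 2 * N + (M : ℝ) ^ 2 * (N : ℝ) ^ 2 / z +
      (R : ℝ) ^ 2 * (S : ℝ) ^ 4 * (N : ℝ) ^ 2 / H + (M : ℝ) * N * B)

/-- Chapter B. The bilinear theorem for the moduli Md, variables ≥ x^(1/3-ε), product ≥ x^(1-ε). -/
def BlStmt (α τ κ ε : ℝ) : Prop := ∀ κ0 : ℝ, 0 < κ0 → κ0 < κ → ∃ η C x0 : ℝ, 0 < η ∧ ∀ (x : ℝ) (a : ℕ → ℤ)
    (M N : ℕ) (f g : ℕ → ℂ) (F : Finset ℕ) (t : ℕ → ℕ), x0 ≤ x → x ^ ((1 : ℝ) / 3 - ε) ≤ N →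
  x ^ ((1 : ℝ) / 3 - ε) ≤ M → x ^ (1 - ε) ≤ (M : ℝ) * N → (M : ℝ) * N ≤ x → (∀ m, ‖f m‖ ≤ 1) → (∀ n, ‖g n‖ ≤ 1) →
  (∀ q ∈ F, Md α τ κ κ0 x (t q) q ∧ Int.gcd (a (t q)) q = 1) →
  ∑ q ∈ F, ‖∑ m ∈ Ioc M (2 * M), ∑ n ∈ Ioc N (2 * N), f m * g n * Ek (a (t q)) (t q) q (m * n)‖ ≤ C * x ^ (1 - η)

/-- Chapter A. The theorem for the von Mangoldt function, one integer a (t q) for every t q and one Y ≤ x. -/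
def CoreStmt (α τ κ : ℝ) : Prop := ∀ κ0 : ℝ, 0 < κ0 → κ0 < κ → ∃ η C x0 : ℝ, 0 < η ∧ ∀ (x : ℝ) (a : ℕ → ℤ) (Y : ℕ)
    (F : Finset ℕ) (t : ℕ → ℕ), x0 ≤ x → (Y : ℝ) ≤ x →
  (∀ q ∈ F, Md α τ κ κ0 x (t q) q ∧ Int.gcd (a (t q)) q = 1) →
  ∑ q ∈ F, ‖∑ n ∈ Icc 1 Y, (ArithmeticFunction.vonMangoldt n : ℂ) * Ek (a (t q)) (t q) q n‖ ≤ C * x ^ (1 - η)

/-- Chapter F. THEOREM MI (version 5) for the level x^α, t ≤ x^τ, primes of d/t in (x^κ0, x^κ]: for every value of t(d) at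
most x^η values s(d), integers of any size. -/
def MIAt (α τ κ : ℝ) : Prop := ∀ κ0 : ℝ, 0 < κ0 → κ0 < κ → ∃ η : ℝ, 0 < η ∧ ∀ U : ℝ, 0 < U → ∃ C : ℝ,
  ∀ (x : ℝ) (s : ℕ → ℤ) (t : ℕ → ℕ) (y : ℕ → ℝ) (M : Finset ℕ), 3 ≤ x →
  (∀ n : ℕ, (((M.filter (fun d => t d = n)).image s).card : ℝ) ≤ x ^ η) → (∀ d, 2 ≤ y d ∧ y d ≤ x) →
  (∀ d ∈ M, Md α τ κ κ0 x (t d) d ∧ Int.gcd (s d) d = 1) →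
  ∑ d ∈ M, |(resCount (y d) d (s d) : ℝ) - (resCount (y d) (t d) (s d) : ℝ) / ((d / t d).totient : ℝ)| ≤
      C * x ^ (1 - η) ∧
    ∑ d ∈ M, |resErr (y d) d (s d)| ≤ C * (x / (Real.log x) ^ U)

/-- THEOREM MI, version 5 -/
def MIStmt : Prop := ∀ δ τ κ : ℝ, 0 ≤ δ → 0 ≤ τ → 0 < κ → 86 * δ + 60 * κ < 1 → 8 * δ + 6 * κ + τ < 1 / 3 →
  MIAt (1 / 2 + δ) τ κ

/-- Chapter B: to prove -/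
def BAllStmt : Prop := ∀ δ τ κ : ℝ, 0 ≤ δ → 0 ≤ τ → 0 < κ → 86 * δ + 60 * κ < 1 → 8 * δ + 6 * κ + τ < 1 / 3 →
  ∃ ε : ℝ, 0 < ε ∧ ε < 1 / 100 ∧ BlStmt (1 / 2 + δ) τ κ ε

/-- Chapter A: to prove -/
def AAllStmt : Prop := ∀ α τ κ ε : ℝ, 0 < ε → ε < 1 / 100 → α ≤ 3 / 5 → 0 ≤ τ → τ ≤ 1 / 3 → 0 < κ → κ ≤ 1 / 10 →
  BlStmt α τ κ ε → CoreStmt α τ κ

/-- Chapter F: to prove. -/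
def FAllStmt : Prop := ∀ α τ κ : ℝ, α ≤ 3 / 5 → 0 ≤ τ → τ ≤ 1 / 3 → 0 < κ → κ ≤ 1 / 10 → CoreStmt α τ κ → MIAt α τ κ

/-! ### chapter T1 -/

open Classical in
/-- the sum of f over the tuples (h, h', w, w', r, u, s2) off the diagonal which satisfy T1Gq (a r); r0 r is a divisor
of r in (L, L'] -/
noncomputable def t1Sum (a : ℕ → ℤ) (R S V L L' : ℕ) (Hs : Finset ℤ) (r0 : ℕ → ℕ)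
    (f : ℤ → ℤ → ℕ → ℕ → ℕ → ℕ → ℕ → ℝ) : ℝ :=
  ∑ h ∈ Hs, ∑ h' ∈ Hs, ∑ w ∈ Ioc V (2 * V), ∑ w' ∈ Ioc V (2 * V), ∑ r ∈ Ioc R (2 * R),
    ∑ u ∈ Icc 1 (2 * S / V), ∑ s2 ∈ Ioc S (2 * S),
      if t1e h h' w w' ≠ 0 ∧ (r0 r ∣ r ∧ L < r0 r ∧ r0 r ≤ L') ∧ T1Gq (a r) S r u w w' s2 then f h h' w w' r u s2
      else 0

/-- the sum of functions f ≤ g -/
lemma t1_Sum_mono {a : ℕ → ℤ} {R S V L L' : ℕ} {Hs : Finset ℤ} {r0 : ℕ → ℕ}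
    {f g : ℤ → ℤ → ℕ → ℕ → ℕ → ℕ → ℕ → ℝ}
    (hfg : ∀ h ∈ Hs, ∀ h' ∈ Hs, ∀ w ∈ Ioc V (2 * V), ∀ w' ∈ Ioc V (2 * V), ∀ r ∈ Ioc R (2 * R),
      ∀ u ∈ Icc 1 (2 * S / V), ∀ s2 ∈ Ioc S (2 * S), t1e h h' w w' ≠ 0 → (r0 r ∣ r ∧ L < r0 r ∧ r0 r ≤ L') →
        T1Gq (a r) S r u w w' s2 → f h h' w w' r u s2 ≤ g h h' w w' r u s2) :
    t1Sum a R S V L L' Hs r0 f ≤ t1Sum a R S V L L' Hs r0 g := by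
  unfold t1Sum
  refine sum_le_sum fun h hh => sum_le_sum fun h' hh' => sum_le_sum fun w hw => sum_le_sum fun w' hw' =>
    sum_le_sum fun r hr => sum_le_sum fun u hu => sum_le_sum fun s2 hs2 => ?_
  split_ifs with hc
  · exact hfg _ hh _ hh' _ hw _ hw' _ hr _ hu _ hs2 hc.1 hc.2.1 hc.2.2
  · exact le_rfl

end Pool.Agent.Lib.MK
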